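import Pool.Agent.H89.HM.Cn
import Pool.Agent.H58.S13.Springer

/-!
# HM-QF: quaternary forms of square determinant over a number field
-/

set_option autoImplicit false

open scoped NumberField
open IsDedekindDomain H63.MA Filter Topology Matrix Pool.Agent.H58.S13

noncomputable section

namespace Pool.Agent.H89.HM

/-- diagonalization of a symmetric matrix -/
theorem exists_diag {F : Type*} [Field F] (h2 : (2 : F) ≠ 0) {n : ℕ} (A : Matrix (Fin n) (Fin n) F)
    (hA : Aᵀ = A) : ∃ (P : Matrix (Fin n) (Fin n) F) (d : Fin n → F), P.det ≠ 0 ∧ Pᵀ * A * P = diagonal d := by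
  have : Invertible (2 : F) := invertibleOfNonzero h2
  have hsymm : LinearMap.IsSymm (Matrix.toBilin' A) := by
    constructor
    intro x y
    rw [Matrix.toBilin'_apply', Matrix.toBilin'_apply', RingHom.id_apply, dotProduct_mulVec, ← mulVec_transpose,
      hA, dotProduct_comm]
  obtain ⟨v, hv⟩ := LinearMap.BilinForm.exists_orthogonal_basis hsymm
  obtain ⟨b, hb⟩ : ∃ b : Module.Basis (Fin n) F (Fin n → F), b = v.reindex (finCongr (Module.finrank_fin_fun F)) :=
    ⟨_, rfl⟩
  have hbo : ∀ i j, i ≠ j → Matrix.toBilin' A (b i) (b j) = 0 := by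
    intro i j hij
    rw [hb, Module.Basis.reindex_apply, Module.Basis.reindex_apply]
    apply hv
    intro h
    exact hij ((finCongr (Module.finrank_fin_fun F)).symm.injective h)
  refine ⟨(Pi.basisFun F (Fin n)).toMatrix b, fun i => Matrix.toBilin' A (b i) (b i), ?_, ?_⟩
  · have h1 := (Pi.basisFun F (Fin n)).isUnit_det b
    rw [Module.Basis.det_apply] at h1
    exact h1.ne_zero
  · ext i j
    have h1 : (((Pi.basisFun F (Fin n)).toMatrix b)ᵀ * A * (Pi.basisFun F (Fin n)).toMatrix b) i j =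
        Matrix.toBilin' A (b i) (b j) := by
      rw [Matrix.toBilin'_apply', Matrix.mul_assoc, Matrix.mul_apply]
      rfl
    rw [h1]
    by_cases hij : i = j
    · subst hij
      rw [Matrix.diagonal_apply_eq]
    · rw [Matrix.diagonal_apply_ne _ hij]
      exact hbo i j hij

/-- the form `x² - α y² - β z² + αβ t²` isotropic: `1/α` is a value of `S² - β T²` -/
theorem four_norm {F : Type*} [Field F] (h2 : (2 : F) ≠ 0) (α β : F) (hα : α ≠ 0) (hβ : β ≠ 0) (x y z t : F)
    (h0 : ¬ (x = 0 ∧ y = 0 ∧ z = 0 ∧ t = 0)) (h : x ^ 2 - α * y ^ 2 - β * z ^ 2 + α * β * t ^ 2 = 0) :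
    ∃ S T : F, α * (S ^ 2 - β * T ^ 2) = 1 := by
  have hsq : ∀ r : F, r ^ 2 = β → ∃ S T : F, α * (S ^ 2 - β * T ^ 2) = 1 := by
    intro r hr
    have hr0 : r ≠ 0 := by
      rintro rfl
      rw [zero_pow two_ne_zero] at hr
      exact hβ hr.symm
    refine ⟨(1 / α + 1) / 2, (1 / α - 1) / (2 * r), ?_⟩
    rw [← hr]
    field_simp
    ring
  by_cases hD : y ^ 2 - β * t ^ 2 = 0
  · by_cases ht : t = 0
    · rw [ht] at hD
      have hy : y = 0 := by
        have : y ^ 2 = 0 := by linear_combination hD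
        exact pow_eq_zero_iff two_ne_zero |>.1 this
      rw [hy, ht] at h
      have h3 : x ^ 2 = β * z ^ 2 := by linear_combination h
      have hz : z ≠ 0 := by
        intro hz
        rw [hz] at h3
        have hx : x = 0 := by
          have : x ^ 2 = 0 := by linear_combination h3
          exact pow_eq_zero_iff two_ne_zero |>.1 this
        exact h0 ⟨hx, hy, hz, ht⟩
      refine hsq (x / z) ?_
      rw [div_pow, h3]
      field_simp
    · refine hsq (y / t) ?_
      rw [div_pow]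
      field_simp
      linear_combination hD
  · refine ⟨(x * y + β * z * t) / (α * (y ^ 2 - β * t ^ 2)), (x * t + z * y) / (α * (y ^ 2 - β * t ^ 2)), ?_⟩
    have h3 : x ^ 2 - β * z ^ 2 = α * (y ^ 2 - β * t ^ 2) := by linear_combination h
    obtain ⟨D, hDd⟩ : ∃ D, D = y ^ 2 - β * t ^ 2 := ⟨_, rfl⟩
    rw [← hDd] at hD h3 ⊢
    have h4 : (x * y + β * z * t) ^ 2 - β * (x * t + z * y) ^ 2 = (x ^ 2 - β * z ^ 2) * D := by
      rw [hDd]
      ring
    rw [div_pow, div_pow, ← mul_div_assoc, ← sub_div, h4, h3]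
    field_simp

theorem isOpen_val {K : Type} [Field K] [NumberField K] (w : Pl K) {η : WithZero (Multiplicative ℤ)} :
    IsOpen {x : w.adicCompletion K | Valued.v x < η} := by
  obtain ⟨y, hy⟩ := w.valuedAdicCompletion_surjective K η
  have h := Valued.isOpen_ball (w.adicCompletion K) (Valued.v.restrict y)
  convert h using 2
  ext x
  rw [Valuation.restrict_lt_iff, hy]

/-- density -/
theorem dense_two {K : Type} [Field K] [NumberField K] (w : Pl K) (α β : K) (S T : w.adicCompletion K)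
    (h : algebraMap K (w.adicCompletion K) α * (S ^ 2 - algebraMap K (w.adicCompletion K) β * T ^ 2) = 1)
    (η : WithZero (Multiplicative ℤ)) (hη : η ≠ 0) :
    ∃ S T : K, w.valuation K (α * (S ^ 2 - β * T ^ 2) - 1) < η := by
  have hd : DenseRange (Prod.map (algebraMap K (w.adicCompletion K)) (algebraMap K (w.adicCompletion K))) :=
    (w.denseRange_algebraMap K).prodMap (w.denseRange_algebraMap K)
  have hc : Continuous fun p : w.adicCompletion K × w.adicCompletion K =>
      algebraMap K (w.adicCompletion K) α * (p.1 ^ 2 - algebraMap K (w.adicCompletion K) β * p.2 ^ 2) - 1 := by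
    fun_prop
  have ho : IsOpen {p : w.adicCompletion K × w.adicCompletion K | Valued.v
      (algebraMap K (w.adicCompletion K) α * (p.1 ^ 2 - algebraMap K (w.adicCompletion K) β * p.2 ^ 2) - 1) < η} :=
    (isOpen_val w).preimage hc
  obtain ⟨⟨S', T'⟩, hST⟩ := hd.exists_mem_open ho ⟨(S, T), by
    rw [Set.mem_ofPred_eq, h, sub_self, map_zero]
    exact zero_lt_iff.2 hη⟩
  refine ⟨S', T', ?_⟩
  rw [Set.mem_ofPred_eq, Prod.map_apply] at hST
  simp only at hST
  have h1 : algebraMap K (w.adicCompletion K) α * ((algebraMap K (w.adicCompletion K) S') ^ 2 -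
      algebraMap K (w.adicCompletion K) β * (algebraMap K (w.adicCompletion K) T') ^ 2) - 1 =
      algebraMap K (w.adicCompletion K) (α * (S' ^ 2 - β * T' ^ 2) - 1) := by
    rw [map_sub, map_mul, map_sub, map_mul, map_pow, map_pow, map_one]
  rw [h1] at hST
  have h2 := w.valuedAdicCompletion_eq_valuation' (α * (S' ^ 2 - β * T' ^ 2) - 1)
  rw [← h2]
  exact hST

theorem qf_mulVec {F : Type*} [Field F] {n : ℕ} (A P : Matrix (Fin n) (Fin n) F) (c : Fin n → F) :
    qf A (P *ᵥ c) = qf (Pᵀ * A * P) c := by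
  unfold qf
  rw [← mulVec_mulVec, ← mulVec_mulVec, dotProduct_mulVec c Pᵀ, vecMul_transpose]

/-- the diagonal data of a quaternary form of square determinant -/
theorem diag_norm {M F : Type*} [Field M] [Field F] (h2 : (2 : F) ≠ 0) (f : M →+* F) (A P : Matrix (Fin 4) (Fin 4) M)
    (d : Fin 4 → M) (s : M) (hs : s ≠ 0) (hdet : A.det = s ^ 2) (hP : P.det ≠ 0) (hd : Pᵀ * A * P = diagonal d)
    (x : Fin 4 → F) (hx : x ≠ 0) (hq : qf (A.map f) x = 0) :
    ∃ S T : F, f (-(d 0 * d 1)) * (S ^ 2 - f (-(d 0 * d 2)) * T ^ 2) = 1 := by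
  have hprod : d 0 * d 1 * d 2 * d 3 = (P.det * s) ^ 2 := by
    have h1 := congrArg Matrix.det hd
    rw [det_mul, det_mul, det_transpose, hdet, det_diagonal, Fin.prod_univ_four] at h1
    rw [← h1]
    ring
  have hne : d 0 * d 1 * d 2 * d 3 ≠ 0 := by
    rw [hprod]
    exact pow_ne_zero 2 (mul_ne_zero hP hs)
  have hd3 : d 3 ≠ 0 := right_ne_zero_of_mul hne
  have hd012 := left_ne_zero_of_mul hne
  have hd2 : d 2 ≠ 0 := right_ne_zero_of_mul hd012
  have hd01 := left_ne_zero_of_mul hd012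
  have hd1 : d 1 ≠ 0 := right_ne_zero_of_mul hd01
  have hd0 : d 0 ≠ 0 := left_ne_zero_of_mul hd01
  have hPf : (P.map f).det ≠ 0 := by
    have h1 : (P.map f).det = f P.det := (RingHom.map_det f P).symm
    rw [h1, Ne, map_eq_zero]
    exact hP
  obtain ⟨c, hc⟩ : ∃ c, c = (P.map f)⁻¹ *ᵥ x := ⟨_, rfl⟩
  have hxc : x = P.map f *ᵥ c := by
    rw [hc, mulVec_mulVec, Matrix.mul_nonsing_inv _ (isUnit_iff_ne_zero.2 hPf), one_mulVec]
  have hc0 : c ≠ 0 := by
    rintro rfl
    rw [mulVec_zero] at hxc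
    exact hx hxc
  have h1 : (P.map f)ᵀ * A.map f * P.map f = diagonal fun i => f (d i) := by
    have h3 := congrArg (fun N : Matrix (Fin 4) (Fin 4) M => N.map f) hd
    simp only [Matrix.map_mul] at h3
    rw [transpose_map] at h3
    rw [h3, diagonal_map (map_zero f)]
  rw [hxc, qf_mulVec, h1] at hq
  have h4 : f (d 0) * c 0 ^ 2 + f (d 1) * c 1 ^ 2 + f (d 2) * c 2 ^ 2 + f (d 3) * c 3 ^ 2 = 0 := by
    rw [← hq]
    unfold qf
    rw [dotProduct, Fin.sum_univ_four]
    simp only [mulVec_diagonal]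
    ring
  have hfd : ∀ i, d i ≠ 0 → f (d i) ≠ 0 := fun i hi => by rwa [Ne, map_eq_zero]
  refine four_norm h2 _ _ ?_ ?_ (f (d 0) * c 0) (c 1) (c 2) (f (P.det * s / (d 0 * d 1 * d 2)) * c 3) ?_ ?_
  · rw [Ne, map_eq_zero, neg_eq_zero]
    exact mul_ne_zero hd0 hd1
  · rw [Ne, map_eq_zero, neg_eq_zero]
    exact mul_ne_zero hd0 hd2
  · rintro ⟨e0, e1, e2, e3⟩
    apply hc0
    funext i
    fin_cases i
    · exact (mul_eq_zero.1 e0).resolve_left (hfd 0 hd0)
    · exact e1
    · exact e2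
    · refine (mul_eq_zero.1 e3).resolve_left fun h0 => ?_
      rw [map_eq_zero] at h0
      exact div_ne_zero (mul_ne_zero hP hs) hd012 h0
  · have h5 : (-(d 0 * d 1)) * (-(d 0 * d 2)) * (P.det * s / (d 0 * d 1 * d 2)) ^ 2 = d 0 * d 3 := by
      rw [div_pow, ← hprod]
      field_simp
    have h6 := congrArg f h5
    rw [map_mul, map_mul, map_pow] at h6
    have h7 : f (-(d 0 * d 1)) * f (-(d 0 * d 2)) * (f (P.det * s / (d 0 * d 1 * d 2)) * c 3) ^ 2 =
        f (d 0) * f (d 3) * c 3 ^ 2 := by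
      rw [mul_pow, ← mul_assoc, h6, map_mul]
    rw [h7, map_neg, map_neg, map_mul, map_mul]
    linear_combination f (d 0) * h4

/-- **Hasse - Minkowski** for quaternary forms of square determinant over a number field -/
theorem hm4 {M : Type} [Field M] [NumberField M] (A : Matrix (Fin 4) (Fin 4) M) (hA : Aᵀ = A) (s : M) (hs : s ≠ 0)
    (hdet : A.det = s ^ 2)
    (hfin : ∀ w : HeightOneSpectrum (𝓞 M), ∃ x : Fin 4 → w.adicCompletion M, x ≠ 0 ∧
      qf (A.map (algebraMap M (w.adicCompletion M))) x = 0)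
    (hreal : ∀ σ : M →+* ℝ, ∃ x : Fin 4 → ℝ, x ≠ 0 ∧ qf (A.map σ) x = 0) :
    ∃ x : Fin 4 → M, x ≠ 0 ∧ qf A x = 0 := by
  obtain ⟨P, d, hP, hd⟩ := exists_diag (two_ne_zero (α := M)) A hA
  have hprod : d 0 * d 1 * d 2 * d 3 = (P.det * s) ^ 2 := by
    have h1 := congrArg Matrix.det hd
    rw [det_mul, det_mul, det_transpose, hdet, det_diagonal, Fin.prod_univ_four] at h1
    rw [← h1]
    ring
  have hne : d 0 * d 1 * d 2 * d 3 ≠ 0 := by
    rw [hprod]
    exact pow_ne_zero 2 (mul_ne_zero hP hs)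
  have hd012 := left_ne_zero_of_mul hne
  have hd2 : d 2 ≠ 0 := right_ne_zero_of_mul hd012
  have hd01 := left_ne_zero_of_mul hd012
  have hd1 : d 1 ≠ 0 := right_ne_zero_of_mul hd01
  have hd0 : d 0 ≠ 0 := left_ne_zero_of_mul hd01
  have hα0 : -(d 0 * d 1) ≠ 0 := neg_ne_zero.2 (mul_ne_zero hd0 hd1)
  have hβ0 : -(d 0 * d 2) ≠ 0 := neg_ne_zero.2 (mul_ne_zero hd0 hd2)
  obtain ⟨S, T, hST⟩ := conic (Units.mk0 _ hα0) (Units.mk0 _ hβ0) (by
    intro w η hη
    obtain ⟨x, hx, hq⟩ := hfin w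
    have h2 : (2 : w.adicCompletion M) ≠ 0 := by
      intro h0
      have h1 : algebraMap M (w.adicCompletion M) 2 = 0 := by rw [map_ofNat, h0]
      rw [map_eq_zero] at h1
      exact two_ne_zero h1
    obtain ⟨S, T, h⟩ := diag_norm h2 _ A P d s hs hdet hP hd x hx hq
    exact dense_two w _ _ S T h η hη) (by
    intro σ
    obtain ⟨x, hx, hq⟩ := hreal σ
    obtain ⟨S, T, h⟩ := diag_norm two_ne_zero σ A P d s hs hdet hP hd x hx hq
    rw [Units.val_mk0, Units.val_mk0]
    by_contra hcon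
    push Not at hcon
    have h1 : 0 ≤ S ^ 2 - σ (-(d 0 * d 2)) * T ^ 2 := by nlinarith [sq_nonneg S, sq_nonneg T, hcon.2]
    have h3 := mul_nonpos_of_nonpos_of_nonneg hcon.1 h1
    rw [h] at h3
    exact absurd h3 (not_le.2 one_pos))
  rw [Units.val_mk0, Units.val_mk0] at hST
  obtain ⟨c, hc⟩ : ∃ c : Fin 4 → M, c = ![S / d 0, 1, T, 0] := ⟨_, rfl⟩
  have hPu : IsUnit P.det := isUnit_iff_ne_zero.2 hP
  refine ⟨P *ᵥ c, ?_, ?_⟩
  · intro h0
    have h1 : c = 0 := by
      have h3 := congrArg (fun z => P⁻¹ *ᵥ z) h0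
      simp only [mulVec_mulVec, mulVec_zero] at h3
      rwa [Matrix.nonsing_inv_mul _ hPu, one_mulVec] at h3
    have h4 := congrFun h1 1
    rw [hc] at h4
    exact one_ne_zero h4
  · rw [qf_mulVec, hd]
    unfold qf
    rw [dotProduct, Fin.sum_univ_four]
    simp only [mulVec_diagonal]
    have e0 : c 0 = S / d 0 := by rw [hc]; rfl
    have e1 : c 1 = 1 := by rw [hc]; rfl
    have e2 : c 2 = T := by rw [hc]; rfl
    have e3 : c 3 = 0 := by rw [hc]; rfl
    rw [e0, e1, e2, e3]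
    field_simp
    linear_combination hST

end Pool.Agent.H89.HM
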