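import Pool.Agent.H89.HM.Ap

/-!
# HM-CN: the theorem of Hasse and Minkowski for conics over a number field

`conic`: `α, β ∈ K*`; for every finite `v` and every precision there are `S, T ∈ K` with `α (S² - β T²)` close to `1` at `v`, and at
every real place `α` or `β` is positive. Then `α = S² - β T²` with `S, T ∈ K`.
-/

set_option autoImplicit false

open scoped NumberField
open IsDedekindDomain H63.MA Filter Topology

noncomputable section

namespace Pool.Agent.H89.HM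

variable {K : Type} [Field K] [NumberField K] {L : Type} [Field L] [NumberField L] [Algebra K L]

/-- values of the norm form are norms -/
theorem nm_of {c : Kˣ} (H : Kum 2 K (-1) c L) (S T : K) (n : Kˣ) (hn : (n : K) = S ^ 2 - c * T ^ 2) :
    ∃ y : Lˣ, Nm K L y = n := by
  have hγ : (H.γ : L) ^ 2 = algebraMap K L (c : K) := H.hγ
  have key : (algebraMap K L S + algebraMap K L T * (H.γ : L)) * (algebraMap K L S - algebraMap K L T * (H.γ : L)) =
      algebraMap K L (n : K) := by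
    rw [hn, map_sub, map_mul, map_pow, map_pow, ← hγ]
    ring
  have hy0 : algebraMap K L S + algebraMap K L T * (H.γ : L) ≠ 0 := by
    intro h0
    rw [h0, zero_mul] at key
    exact n.ne_zero ((map_eq_zero_iff _ (algebraMap K L).injective).1 key.symm)
  refine ⟨Units.mk0 _ hy0, ?_⟩
  apply kuma_inc_inj K L
  rw [kum_norm Nat.prime_two z1 H]
  apply Units.ext
  rw [Units.coe_prod, Finset.prod_range_succ, Finset.prod_range_one]
  have h0 : ((au (H.σ ^ 0) (Units.mk0 _ hy0) : Lˣ) : L) = algebraMap K L S + algebraMap K L T * (H.γ : L) := by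
    rw [pow_zero]
    rfl
  have h1 : ((au (H.σ ^ 1) (Units.mk0 _ hy0) : Lˣ) : L) = algebraMap K L S - algebraMap K L T * (H.γ : L) := by
    rw [pow_one]
    show H.σ (algebraMap K L S + algebraMap K L T * (H.γ : L)) = _
    rw [map_add, map_mul, AlgEquiv.commutes, AlgEquiv.commutes, H.hσ, map_neg, map_one]
    ring
  rw [h0, h1, key]
  rfl

/-- norms are values of the norm form -/
theorem of_nm {c : Kˣ} (H : Kum 2 K (-1) c L) (y : Lˣ) : ∃ a b : K, ((Nm K L y : Kˣ) : K) = a ^ 2 - c * b ^ 2 := by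
  have hγ : (H.γ : L) ^ 2 = algebraMap K L (c : K) := H.hγ
  have hγ0 : (H.γ : L) ≠ 0 := H.γ.ne_zero
  have hσγ : H.σ (H.γ : L) = -(H.γ : L) := by
    rw [H.hσ, map_neg, map_one, neg_one_mul]
  have hσσ : ∀ z : L, H.σ (H.σ z) = z := by
    intro z
    have h1 := kum_σ_pow Nat.prime_two z1 H
    have h2 := congrArg (fun f : L ≃ₐ[K] L => f z) h1
    rw [pow_two] at h2
    exact h2
  have h2 : (2 : L) ≠ 0 := two_ne_zero
  obtain ⟨a, ha⟩ := kum_fixed Nat.prime_two z1 H (((y : L) + H.σ y) / 2) (by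
    rw [map_div₀, map_add, hσσ, map_ofNat, add_comm])
  obtain ⟨b, hb⟩ := kum_fixed Nat.prime_two z1 H (((y : L) - H.σ y) / (2 * H.γ)) (by
    rw [map_div₀, map_sub, hσσ, map_mul, map_ofNat, hσγ, mul_neg, div_neg, ← neg_div, neg_sub])
  refine ⟨a, b, ?_⟩
  apply (algebraMap K L).injective
  have h3 : algebraMap K L ((Nm K L y : Kˣ) : K) = ((inc K L (Nm K L y) : Lˣ) : L) := rfl
  rw [h3, kum_norm Nat.prime_two z1 H, Units.coe_prod, Finset.prod_range_succ, Finset.prod_range_one]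
  have h0 : ((au (H.σ ^ 0) y : Lˣ) : L) = y := by
    rw [pow_zero]
    rfl
  have h1 : ((au (H.σ ^ 1) y : Lˣ) : L) = H.σ y := by
    rw [pow_one]
    rfl
  rw [h0, h1, map_sub, map_mul, map_pow, map_pow, ha, hb, ← hγ]
  field_simp
  ring

theorem S_form {v : Pl K} (hv : ¬ Above 2 v) (β n : Kˣ) (S T : K) (hn : (n : K) = S ^ 2 - β * T ^ 2) :
    Pool.Agent.H89.HM.S v β n = 0 := by
  by_cases hβ : IsPow 2 β
  · obtain ⟨r, rfl⟩ := hβ
    exact S_sq_left hv _ _
  · obtain ⟨L, _, _, _, ⟨H⟩⟩ := kum_exists Nat.prime_two z1 hβ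
    obtain ⟨y, hy⟩ := nm_of H S T n hn
    rw [← hy]
    exact S_norm H hv y

theorem S_local {v : Pl K} (hv : ¬ Above 2 v) (α β : Kˣ) (S T : K)
    (h : v.valuation K ((α : K) * (S ^ 2 - β * T ^ 2) - 1) < 1) : Pool.Agent.H89.HM.S v β α = 0 := by
  have h0 : S ^ 2 - β * T ^ 2 ≠ 0 := by
    intro h0
    rw [h0, mul_zero, zero_sub, Valuation.map_neg, map_one] at h
    exact lt_irrefl _ h
  have h1 : One1 v (α * Units.mk0 _ h0) := h
  have h2 := S_of_one1 hv β h1
  rw [S_mul_right hv, S_form hv β (Units.mk0 _ h0) S T rfl, add_zero] at h2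
  exact h2

/-- **Hasse - Minkowski for conics** -/
theorem conic (α β : Kˣ)
    (hfin : ∀ v : Pl K, ∀ η : WithZero (Multiplicative ℤ), η ≠ 0 → ∃ S T : K,
      v.valuation K ((α : K) * (S ^ 2 - β * T ^ 2) - 1) < η)
    (hreal : ∀ σ : K →+* ℝ, 0 < σ (α : K) ∨ 0 < σ (β : K)) :
    ∃ S T : K, S ^ 2 - β * T ^ 2 = α := by
  have h2 : (2 : K) ≠ 0 := two_ne_zero
  by_cases hβ : IsPow 2 β
  · obtain ⟨r, rfl⟩ := hβ
    have hr : (r : K) ≠ 0 := r.ne_zero
    refine ⟨((α : K) + 1) / 2, ((α : K) - 1) / (2 * r), ?_⟩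
    rw [Units.val_pow_eq_pow_val]
    field_simp
    ring
  have hη : ∀ v : Pl K, v.valuation K (((2 : ℕ) : K) ^ 2) ≠ 0 := fun v => by
    rw [Valuation.ne_zero_iff]
    exact pow_ne_zero 2 (by norm_num)
  have hle1 : ∀ v : Pl K, v.valuation K (((2 : ℕ) : K) ^ 2) ≤ 1 := fun v => by
    rw [map_pow, Nat.cast_ofNat]
    exact pow_le_one₀ zero_le' (val_two_le v)
  obtain ⟨S, T, hST, hpos⟩ := exists_good α β (fun v _ => hfin v _ (hη v)) hreal
  have hn0 : S ^ 2 - β * T ^ 2 ≠ 0 := by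
    intro h0
    obtain ⟨v, hv⟩ := exists_above2 K
    have h := hST v hv
    rw [h0, mul_zero, zero_sub, Valuation.map_neg, map_one] at h
    exact absurd (lt_of_lt_of_le h (hle1 v)) (lt_irrefl _)
  obtain ⟨n, hn⟩ : ∃ n : Kˣ, (n : K) = S ^ 2 - β * T ^ 2 := ⟨Units.mk0 _ hn0, rfl⟩
  obtain ⟨c, hc⟩ : ∃ c : Kˣ, c = α * n := ⟨_, rfl⟩
  have hcv : (c : K) = α * (S ^ 2 - β * T ^ 2) := by rw [hc, Units.val_mul, hn]
  -- `c` a norm from `K(√β)` suffices
  have fin : ∀ P Q : K, P ^ 2 - β * Q ^ 2 = c → ∃ S T : K, S ^ 2 - β * T ^ 2 = α := by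
    intro P Q h
    refine ⟨(P * S + β * Q * T) / n, (P * T + Q * S) / n, ?_⟩
    have hn1 : (n : K) ≠ 0 := n.ne_zero
    have h3 : (α : K) * n = c := by rw [hc, Units.val_mul]
    have h4 : (((P * S + β * Q * T) / n) ^ 2 - β * ((P * T + Q * S) / n) ^ 2) =
        (P ^ 2 - β * Q ^ 2) * (S ^ 2 - β * T ^ 2) / (n : K) ^ 2 := by
      field_simp
      ring
    rw [h4, h, ← hn, ← h3]
    field_simp
  by_cases hcp : IsPow 2 c
  · obtain ⟨r, hr⟩ := hcp
    refine fin (r : K) 0 ?_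
    rw [← hr, Units.val_pow_eq_pow_val]
    ring
  · obtain ⟨L, _, _, _, ⟨H⟩⟩ := kum_exists Nat.prime_two z1 hcp
    have hprim : Prim 2 c := by
      intro v hv
      refine ⟨1, ?_⟩
      rw [one_pow, inv_one, mul_one, hcv]
      exact hST v hv
    have hS : ∀ v : Pl K, ¬ Above 2 v → Pool.Agent.H89.HM.S v c β = 0 := by
      intro v hv
      obtain ⟨S', T', h'⟩ := hfin v 1 one_ne_zero
      rw [S_symm hv, hc, S_mul_right hv, S_form hv β n S T hn, add_zero]
      exact S_local hv α β S' T' h'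
    obtain ⟨y, hy⟩ := hasse_pos H (fun σ => by rw [hcv]; exact hpos σ) hprim β hS
    obtain ⟨a, b, hab⟩ := of_nm H y
    rw [hy] at hab
    have hb : b ≠ 0 := by
      rintro rfl
      apply hβ
      have ha : a ≠ 0 := by
        rintro rfl
        exact β.ne_zero (by rw [hab]; ring)
      refine ⟨Units.mk0 a ha, Units.ext ?_⟩
      rw [Units.val_pow_eq_pow_val, Units.val_mk0, hab]
      ring
    refine fin (a / b) (1 / b) ?_
    field_simp
    rw [hab]
    ring

end Pool.Agent.H89.HM
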