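import Pool.Agent.H89.HM.Ha

/-!
# HM-AP: the approximation step: `c = α (S² - β T²)` primary at `2` and totally positive
-/

set_option autoImplicit false

open scoped NumberField
open IsDedekindDomain H63.MA Filter Topology

noncomputable section

namespace Pool.Agent.H89.HM

variable {K : Type} [Field K] [NumberField K]

theorem exists_above2 (K : Type) [Field K] [NumberField K] : ∃ v : Pl K, Above 2 v := by
  have hu : ¬ IsUnit ((2 : ℕ) : 𝓞 K) := by
    intro h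
    have h1 : IsUnit (Algebra.norm ℤ ((2 : ℕ) : 𝓞 K)) := h.map _
    rw [← map_natCast (algebraMap ℤ (𝓞 K)), Algebra.norm_algebraMap] at h1
    have h2 : IsUnit ((2 : ℕ) : ℤ) := (isUnit_pow_iff Module.finrank_pos.ne').1 h1
    rw [Int.isUnit_iff] at h2
    omega
  obtain ⟨M, hM, hle⟩ := Ideal.exists_le_maximal (Ideal.span {((2 : ℕ) : 𝓞 K)}) (by
    rw [Ne, Ideal.span_singleton_eq_top]
    exact hu)
  have h2 : ((2 : ℕ) : 𝓞 K) ∈ M := hle (Ideal.mem_span_singleton_self _)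
  refine ⟨⟨M, hM.isPrime, ?_⟩, h2⟩
  rintro rfl
  rw [Ideal.mem_bot] at h2
  norm_num at h2

theorem wa_add (T : Finset (Pl K)) (y : Pl K → K) (n : ℕ) :
    ∃ x : K, ∀ v ∈ T, v.valuation K (x - y v) ≤ WithZero.exp (-(n : ℤ)) := by
  classical
  obtain ⟨N, hN⟩ := wa_small_finset (T ×ˢ T) (fun q => q.1.valuation K (y q.2))
    (fun _ => WithZero.exp (-(n : ℤ))) (fun _ _ => WithZero.exp_ne_zero)
  choose e he using fun v : Pl K => wa_idem T N v
  refine ⟨∑ v ∈ T, e v * y v, fun w hw => ?_⟩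
  have h1 : ∑ v ∈ T, e v * y v - y w = ∑ v ∈ T, (e v - if w = v then 1 else 0) * y v := by
    have h2 : y w = ∑ v ∈ T, (if w = v then 1 else 0) * y v := by
      rw [Finset.sum_eq_single w]
      · simp
      · intro v _ hvw
        rw [if_neg (Ne.symm hvw), zero_mul]
      · intro h; exact absurd hw h
    conv_lhs => rw [h2]
    rw [← Finset.sum_sub_distrib]
    exact Finset.sum_congr rfl fun v _ => by ring
  rw [h1]
  apply Valuation.map_sum_le
  intro v hv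
  rw [map_mul]
  refine le_trans ?_ (hN (w, v) (Finset.mem_product.2 ⟨hw, hv⟩)).le
  gcongr
  exact he v w hw

theorem val_two_le (v : Pl K) : v.valuation K (2 : K) ≤ 1 := by
  have h := v.valuation_le_one (K := K) (2 : 𝓞 K)
  have h1 : ((2 : 𝓞 K) : K) = 2 := map_ofNat (algebraMap (𝓞 K) K) 2
  calc v.valuation K (2 : K) = v.valuation K ((2 : 𝓞 K) : K) := by rw [h1]
    _ ≤ 1 := h

theorem sq_close (v : Pl K) (α S : K) {η : WithZero (Multiplicative ℤ)} (hη : η ≠ 0) :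
    ∃ n0 : ℕ, ∀ n : ℕ, n0 ≤ n → ∀ s : K, v.valuation K s ≤ WithZero.exp (-(n : ℤ)) →
      v.valuation K (α * (s * (2 * S + s))) < η := by
  obtain ⟨n0, hn0⟩ := wa_small (v.valuation K α * max (v.valuation K S) 1) η hη
  refine ⟨n0, fun n hn s hs => lt_of_le_of_lt ?_ (hn0 n hn)⟩
  have h1 : v.valuation K s ≤ 1 := by
    refine hs.trans ?_
    rw [← WithZero.exp_zero, WithZero.exp_le_exp]
    omega
  have h2 : v.valuation K (2 * S + s) ≤ max (v.valuation K S) 1 := by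
    refine (Valuation.map_add _ _ _).trans (max_le_max ?_ h1)
    rw [map_mul]
    calc _ ≤ 1 * v.valuation K S := by
          gcongr
          exact val_two_le v
      _ = _ := one_mul _
  rw [map_mul, map_mul]
  calc v.valuation K α * (v.valuation K s * v.valuation K (2 * S + s))
      ≤ v.valuation K α * (WithZero.exp (-(n : ℤ)) * max (v.valuation K S) 1) := by gcongr
    _ = _ := mul_left_comm _ _ _

theorem pow_two_small {v : Pl K} (hv : Above 2 v) (a : K) (n : ℕ) :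
    ∃ j0 : ℕ, ∀ j : ℕ, j0 ≤ j → v.valuation K (2 ^ j * a) ≤ WithZero.exp (-(n : ℤ)) := by
  obtain ⟨j0, hj0⟩ := wa_small (v.valuation K a) (WithZero.exp (-(n : ℤ))) WithZero.exp_ne_zero
  refine ⟨j0, fun j hj => le_trans ?_ (hj0 j hj).le⟩
  rw [map_mul, map_pow]
  gcongr
  have h1 : v.valuation K (2 : K) ≤ WithZero.exp (-1 : ℤ) := by
    have h2 := (above_iff 2 v).1 hv
    rw [Nat.cast_ofNat] at h2
    have h3 : v.valuation K (2 : K) ≠ 0 := by
      rw [Valuation.ne_zero_iff]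
      exact two_ne_zero
    rw [← WithZero.exp_log h3] at h2 ⊢
    rw [← WithZero.exp_zero, WithZero.exp_lt_exp] at h2
    rw [WithZero.exp_le_exp]
    omega
  calc (v.valuation K (2 : K)) ^ j ≤ (WithZero.exp (-1 : ℤ)) ^ j := by gcongr
    _ = WithZero.exp (-(j : ℤ)) := by
      rw [← WithZero.exp_nsmul]
      congr 1
      simp

theorem real_ev (α β s t a b : ℝ) (h : 0 < α * (a ^ 2 - β * b ^ 2)) :
    ∀ᶠ j : ℕ in atTop, 0 < α * ((s + 2 ^ j * a) ^ 2 - β * (t + 2 ^ j * b) ^ 2) := by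
  have h1 : Tendsto (fun j : ℕ => ((1 / 2 : ℝ)) ^ j) atTop (𝓝 0) :=
    tendsto_pow_atTop_nhds_zero_of_lt_one (by norm_num) (by norm_num)
  have h2 : Continuous fun u : ℝ => α * ((s * u + a) ^ 2 - β * (t * u + b) ^ 2) := by fun_prop
  have h3 := (h2.tendsto 0).comp h1
  have h4 : α * ((s * 0 + a) ^ 2 - β * (t * 0 + b) ^ 2) = α * (a ^ 2 - β * b ^ 2) := by ring
  rw [h4] at h3
  filter_upwards [h3.eventually (lt_mem_nhds h)] with j hj
  have h5 : (0 : ℝ) < (2 : ℝ) ^ j := by positivity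
  have h6 : α * ((s + 2 ^ j * a) ^ 2 - β * (t + 2 ^ j * b) ^ 2) =
      (2 ^ j) ^ 2 * (α * ((s * (1 / 2) ^ j + a) ^ 2 - β * (t * (1 / 2) ^ j + b) ^ 2)) := by
    have h7 : (2 : ℝ) ^ j * (1 / 2) ^ j = 1 := by rw [← mul_pow]; norm_num
    have h8 : (2 : ℝ) ^ j * (s * (1 / 2) ^ j + a) = s + 2 ^ j * a := by linear_combination s * h7
    have h9 : (2 : ℝ) ^ j * (t * (1 / 2) ^ j + b) = t + 2 ^ j * b := by linear_combination t * h7
    rw [← h8, ← h9]
    ring
  rw [h6]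
  exact mul_pos (by positivity) hj

theorem real_ev2 (α β : ℝ) (hα : α ≠ 0) (h : 0 < α ∨ 0 < β) :
    ∀ᶠ k : ℕ in atTop, 0 < α * (((α + 1) ^ k) ^ 2 - β * ((α - 1) ^ k) ^ 2) := by
  rcases lt_or_gt_of_ne hα with hneg | hpos
  · have hβ : 0 < β := h.resolve_left (not_lt.2 hneg.le)
    have hr : |(α + 1) / (α - 1)| < 1 := by
      rw [abs_div, div_lt_one (abs_pos.2 (by linarith)), ← sq_lt_sq]
      nlinarith
    have h1 := tendsto_pow_atTop_nhds_zero_of_abs_lt_one hr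
    have h2 : Continuous fun u : ℝ => β - u ^ 2 := by fun_prop
    have h3 := (h2.tendsto 0).comp h1
    have h4 : β - (0 : ℝ) ^ 2 = β := by ring
    rw [h4] at h3
    filter_upwards [h3.eventually (lt_mem_nhds hβ)] with k hk
    have h5 : (0 : ℝ) < ((α - 1) ^ k) ^ 2 := by
      have : (α - 1) ^ k ≠ 0 := pow_ne_zero _ (by linarith)
      positivity
    have h6 : α * (((α + 1) ^ k) ^ 2 - β * ((α - 1) ^ k) ^ 2) =
        (-α) * (((α - 1) ^ k) ^ 2 * (β - (((α + 1) / (α - 1)) ^ k) ^ 2)) := by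
      have h7 : (α - 1) ^ k * ((α + 1) / (α - 1)) ^ k = (α + 1) ^ k := by
        rw [← mul_pow, mul_div_cancel₀ _ (by linarith)]
      rw [← h7]
      ring
    rw [h6]
    exact mul_pos (by linarith) (mul_pos h5 hk)
  · have hr : |(α - 1) / (α + 1)| < 1 := by
      rw [abs_div, div_lt_one (abs_pos.2 (by linarith)), ← sq_lt_sq]
      nlinarith
    have h1 := tendsto_pow_atTop_nhds_zero_of_abs_lt_one hr
    have h2 : Continuous fun u : ℝ => 1 - β * u ^ 2 := by fun_prop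
    have h3 := (h2.tendsto 0).comp h1
    have h4 : 1 - β * (0 : ℝ) ^ 2 = 1 := by ring
    rw [h4] at h3
    filter_upwards [h3.eventually (lt_mem_nhds one_pos)] with k hk
    have h5 : (0 : ℝ) < ((α + 1) ^ k) ^ 2 := by
      have : (α + 1) ^ k ≠ 0 := pow_ne_zero _ (by linarith)
      positivity
    have h6 : α * (((α + 1) ^ k) ^ 2 - β * ((α - 1) ^ k) ^ 2) =
        α * (((α + 1) ^ k) ^ 2 * (1 - β * (((α - 1) / (α + 1)) ^ k) ^ 2)) := by
      have h7 : (α + 1) ^ k * ((α - 1) / (α + 1)) ^ k = (α - 1) ^ k := by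
        rw [← mul_pow, mul_div_cancel₀ _ (by linarith)]
      rw [← h7]
      ring
    rw [h6]
    exact mul_pos hpos (mul_pos h5 hk)

/-- the approximation step -/
theorem exists_good (α β : Kˣ)
    (hfin : ∀ v : Pl K, Above 2 v → ∃ S T : K,
      v.valuation K ((α : K) * (S ^ 2 - β * T ^ 2) - 1) < v.valuation K (((2 : ℕ) : K) ^ 2))
    (hreal : ∀ σ : K →+* ℝ, 0 < σ (α : K) ∨ 0 < σ (β : K)) :
    ∃ S T : K, (∀ v : Pl K, Above 2 v →
      v.valuation K ((α : K) * (S ^ 2 - β * T ^ 2) - 1) < v.valuation K (((2 : ℕ) : K) ^ 2)) ∧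
      ∀ σ : K →+* ℝ, 0 < σ ((α : K) * (S ^ 2 - β * T ^ 2)) := by
  classical
  obtain ⟨F, hF⟩ : ∃ F : Finset (Pl K), ∀ v, v ∈ F ↔ Above 2 v :=
    ⟨(finite_above (K := K) two_ne_zero).toFinset, fun v => by simp⟩
  have hη : ∀ v : Pl K, v.valuation K (((2 : ℕ) : K) ^ 2) ≠ 0 := fun v => by
    rw [Valuation.ne_zero_iff]
    exact pow_ne_zero 2 (by norm_num)
  -- local solutions
  have hloc : ∀ v : Pl K, ∃ ST : K × K, Above 2 v →
      v.valuation K ((α : K) * (ST.1 ^ 2 - β * ST.2 ^ 2) - 1) < v.valuation K (((2 : ℕ) : K) ^ 2) := by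
    intro v
    by_cases hv : Above 2 v
    · obtain ⟨S, T, h⟩ := hfin v hv
      exact ⟨(S, T), fun _ => h⟩
    · exact ⟨(0, 0), fun h => absurd h hv⟩
  choose ST hST using hloc
  -- the precision
  have hprec : ∀ v : Pl K, ∃ n0 : ℕ, ∀ n : ℕ, n0 ≤ n → (∀ s : K, v.valuation K s ≤ WithZero.exp (-(n : ℤ)) →
      v.valuation K ((α : K) * (s * (2 * (ST v).1 + s))) < v.valuation K (((2 : ℕ) : K) ^ 2)) ∧
      (∀ s : K, v.valuation K s ≤ WithZero.exp (-(n : ℤ)) →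
      v.valuation K ((α : K) * β * (s * (2 * (ST v).2 + s))) < v.valuation K (((2 : ℕ) : K) ^ 2)) := by
    intro v
    obtain ⟨n1, h1⟩ := sq_close v (α : K) (ST v).1 (hη v)
    obtain ⟨n2, h2⟩ := sq_close v ((α : K) * β) (ST v).2 (hη v)
    exact ⟨max n1 n2, fun n hn => ⟨h1 n (le_trans (le_max_left _ _) hn), h2 n (le_trans (le_max_right _ _) hn)⟩⟩
  choose n0 hn0 using hprec
  obtain ⟨n, hn⟩ : ∃ n : ℕ, ∀ v ∈ F, n0 v ≤ n := ⟨F.sup n0, fun v hv => Finset.le_sup hv⟩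
  obtain ⟨S0, hS0⟩ := wa_add F (fun v => (ST v).1) n
  obtain ⟨T0, hT0⟩ := wa_add F (fun v => (ST v).2) n
  -- the real places
  have hk : ∀ᶠ k : ℕ in atTop, ∀ σ : K →+* ℝ,
      0 < σ (α : K) * (((σ (α : K) + 1) ^ k) ^ 2 - σ (β : K) * ((σ (α : K) - 1) ^ k) ^ 2) := by
    rw [Filter.eventually_all]
    intro σ
    exact real_ev2 _ _ (by rw [Ne, map_eq_zero]; exact α.ne_zero) (hreal σ)
  obtain ⟨k, hk⟩ := hk.exists
  obtain ⟨a, ha⟩ : ∃ a : K, a = ((α : K) + 1) ^ k := ⟨_, rfl⟩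
  obtain ⟨b, hb⟩ : ∃ b : K, b = ((α : K) - 1) ^ k := ⟨_, rfl⟩
  have hj1 : ∀ᶠ j : ℕ in atTop, ∀ σ : K →+* ℝ,
      0 < σ (α : K) * ((σ S0 + 2 ^ j * σ a) ^ 2 - σ (β : K) * (σ T0 + 2 ^ j * σ b) ^ 2) := by
    rw [Filter.eventually_all]
    intro σ
    apply real_ev
    have h1 := hk σ
    rw [ha, hb, map_pow, map_pow, map_add, map_sub, map_one]
    exact h1
  have hj2 : ∀ᶠ j : ℕ in atTop, ∀ v ∈ F, v.valuation K (2 ^ j * a) ≤ WithZero.exp (-(n : ℤ)) ∧
      v.valuation K (2 ^ j * b) ≤ WithZero.exp (-(n : ℤ)) := by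
    rw [Filter.eventually_all_finset]
    intro v hv
    obtain ⟨j1, h1⟩ := pow_two_small ((hF v).1 hv) a n
    obtain ⟨j2, h2⟩ := pow_two_small ((hF v).1 hv) b n
    filter_upwards [Filter.eventually_ge_atTop (max j1 j2)] with j hj
    exact ⟨h1 j (le_trans (le_max_left _ _) hj), h2 j (le_trans (le_max_right _ _) hj)⟩
  obtain ⟨j, hj1, hj2⟩ := (hj1.and hj2).exists
  refine ⟨S0 + 2 ^ j * a, T0 + 2 ^ j * b, ?_, ?_⟩
  · intro v hv
    have hvF := (hF v).2 hv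
    have hs : v.valuation K (S0 + 2 ^ j * a - (ST v).1) ≤ WithZero.exp (-(n : ℤ)) := by
      have h1 : S0 + 2 ^ j * a - (ST v).1 = (S0 - (ST v).1) + 2 ^ j * a := by ring
      rw [h1]
      exact Valuation.map_add_le _ (hS0 v hvF) (hj2 v hvF).1
    have ht : v.valuation K (T0 + 2 ^ j * b - (ST v).2) ≤ WithZero.exp (-(n : ℤ)) := by
      have h1 : T0 + 2 ^ j * b - (ST v).2 = (T0 - (ST v).2) + 2 ^ j * b := by ring
      rw [h1]
      exact Valuation.map_add_le _ (hT0 v hvF) (hj2 v hvF).2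
    obtain ⟨h1, h2⟩ := hn0 v n (hn v hvF)
    have h3 := h1 _ hs
    have h4 := h2 _ ht
    have h5 := hST v hv
    have h6 : (α : K) * ((S0 + 2 ^ j * a) ^ 2 - β * (T0 + 2 ^ j * b) ^ 2) - 1 =
        ((α : K) * ((ST v).1 ^ 2 - β * (ST v).2 ^ 2) - 1) +
          ((α : K) * ((S0 + 2 ^ j * a - (ST v).1) * (2 * (ST v).1 + (S0 + 2 ^ j * a - (ST v).1))) -
          (α : K) * β * ((T0 + 2 ^ j * b - (ST v).2) * (2 * (ST v).2 + (T0 + 2 ^ j * b - (ST v).2)))) := by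
      ring
    rw [h6]
    exact Valuation.map_add_lt _ h5 (Valuation.map_sub_lt _ h3 h4)
  · intro σ
    have h1 := hj1 σ
    rw [map_mul, map_sub, map_pow, map_mul, map_pow, map_add, map_add, map_mul, map_mul, map_pow, map_ofNat]
    exact h1

end Pool.Agent.H89.HM
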