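import Pool.Agent.H89.HM.Sc

/-!
# HM-HA: norms from `K(√c)`: the quadratic symbol of a norm is trivial, and the Hasse norm theorem for `c` totally positive and
primary at `2`
-/

set_option autoImplicit false

open scoped NumberField
open IsDedekindDomain H63.MA

noncomputable section

namespace Pool.Agent.H89.HM

private theorem au_mul' {K L : Type} [Field K] [Field L] [Algebra K L] (s t : L ≃ₐ[K] L)
    (y : Lˣ) : au (s * t) y = au s (au t y) := rfl

private theorem prod_one1 {K : Type} [Field K] [NumberField K] {ι : Type} (v : Pl K)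
    (s : Finset ι) (f : ι → Kˣ) (h : ∀ i ∈ s, One1 v (f i)) : One1 v (∏ i ∈ s, f i) := by
  classical
  induction s using Finset.induction_on with
  | empty =>
    rw [Finset.prod_empty]
    exact one1_one v
  | insert a s ha ih =>
    rw [Finset.prod_insert ha]
    exact one1_mul (h a (Finset.mem_insert_self a s))
      (ih fun i hi => h i (Finset.mem_insert_of_mem hi))

variable {K : Type} [Field K] [NumberField K] {L : Type} [Field L] [NumberField L] [Algebra K L]
  {c : Kˣ} (H : Kum 2 K (-1) c L)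

theorem norm_γ : Nm K L H.γ = -c := by
  apply kuma_inc_inj K L
  rw [kum_norm Nat.prime_two z1 H]
  apply Units.ext
  rw [Units.coe_prod]
  have h1 : ∀ i ∈ Finset.range 2, ((au (H.σ ^ i) H.γ : Lˣ) : L) =
      algebraMap K L ((-1) ^ i) * H.γ := fun i _ => kum_pow Nat.prime_two z1 H i
  rw [Finset.prod_congr rfl h1, Finset.prod_mul_distrib, Finset.prod_const, Finset.card_range,
    H.hγ, ← map_prod, Finset.prod_range_succ, Finset.prod_range_one, pow_zero, pow_one, one_mul]
  rw [← map_mul, neg_one_mul]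
  rfl

include H in
theorem S_norm {v : Pl K} (hv : ¬ Above 2 v) (y : Lˣ) : S v c (Nm K L y) = 0 := by
  classical
  have hp : Nat.Prime 2 := Nat.prime_two
  have hζ : IsPrimitiveRoot (-1 : K) 2 := z1
  have hp0 : ((2 : ℕ) : ℤ) ≠ 0 := by norm_num
  by_cases hs : Spl 2 (-1) v c
  · exact spl_S hv hs _
  obtain ⟨w, hw⟩ := exists_over (L := L) v
  have hstab : {w : Pl L | Over w v}.ncard = 1 → ∀ (i : ℕ) (z : Lˣ),
      ord w (au (H.σ ^ i) z) = ord w z := by
    intro hg i z
    induction i with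
    | zero => rfl
    | succ i ih =>
      rw [pow_succ', au_mul', nonsplit_stable hp hζ H hg hw, ih]
  have hnorm : {w : Pl L | Over w v}.ncard = 1 → ∀ z : Lˣ,
      ord w (inc K L (Nm K L z)) = (2 : ℕ) * ord w z := by
    intro hg z
    rw [kum_norm hp hζ H, ord_prod, Finset.sum_congr rfl (fun i _ => hstab hg i z),
      Finset.sum_const, Finset.card_range, nsmul_eq_mul]
  by_cases hc : ((2 : ℕ) : ℤ) ∣ ord v c
  · have hg := (inert_case hp hζ H hv hc hs hw).1
    have h1 := hnorm hg y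
    rw [unram_case hp hζ H hv hc hw] at h1
    obtain ⟨π, hπ⟩ := exists_unif v
    rw [S_unram hv hc hπ, h1]
    have h2 : (((2 : ℕ) * ord w y : ℤ) : ZMod 2) = 0 :=
      (ZMod.intCast_zmod_eq_zero_iff_dvd _ _).2 (Dvd.intro _ rfl)
    rw [h2, zero_mul]
  · obtain ⟨hg, he, hr⟩ := ram_case hp hζ H hv hc hw
    have h1 := hnorm hg y
    rw [he] at h1
    have h2 : ord v (Nm K L y) = ord w y := mul_left_cancel₀ hp0 h1
    have h3 : H.γ ^ 2 = inc K L c := Units.ext H.hγ
    have h4 : ord w H.γ = ord v c := by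
      have h5 := congrArg (ord w) h3
      rw [ord_pow, he] at h5
      exact mul_left_cancel₀ hp0 h5
    set m := ord w y with hm
    set e := ord v c with hedef
    set z : Lˣ := y ^ e * (H.γ ^ m)⁻¹ with hz
    have h5 : ord w z = 0 := by
      rw [hz, ord_mul, ord_inv, ord_zpow, ord_zpow, h4, ← hm]
      ring
    obtain ⟨r, hr0, hr1⟩ := hr z h5
    have hone : ∀ (i : ℕ), One1 w (au (H.σ ^ i) (z * (inc K L r)⁻¹)) := by
      intro i
      induction i with
      | zero => exact hr1
      | succ i ih =>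
        rw [pow_succ', au_mul']
        exact (nonsplit_one1 hp hζ H hg hw _).2 ih
    have h6 : One1 v (Nm K L (z * (inc K L r)⁻¹)) := by
      rw [← one1_over hw, kum_norm hp hζ H]
      exact prod_one1 w _ _ fun i _ => hone i
    have h7 : Nm K L (z * (inc K L r)⁻¹) = Nm K L y ^ e * ((-c) ^ m)⁻¹ * (r ^ 2)⁻¹ := by
      rw [map_mul, map_inv, kum_norm_inc hp hζ H, hz, map_mul, map_inv, map_zpow, map_zpow,
        norm_γ H]
    rw [h7] at h6
    have hnc : ord v (-c) = e := by
      rw [← neg_one_mul, ord_mul, ord_neg_one, zero_add]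
    have h8 : ord v ((-c) ^ m * (Nm K L y ^ e)⁻¹) = 0 := by
      rw [ord_mul, ord_inv, ord_zpow, ord_zpow, h2, hnc]
      ring
    have h9 : lg 2 (-1) v ((-c) ^ m * (Nm K L y ^ e)⁻¹) = 0 := by
      rw [lg_eq_zero_iff hp hζ hv h8]
      refine ⟨r⁻¹, by rw [ord_inv, hr0, neg_zero], ?_⟩
      have h9 : (-c) ^ m * (Nm K L y ^ e)⁻¹ * (r⁻¹ ^ 2)⁻¹ =
          (Nm K L y ^ e * ((-c) ^ m)⁻¹ * (r ^ 2)⁻¹)⁻¹ := by
        rw [inv_pow, inv_inv]
        simp only [mul_inv, inv_inv, mul_comm, mul_left_comm, mul_assoc]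
      rw [h9]
      exact one1_inv h6
    have h10 : c ^ m * (Nm K L y ^ e)⁻¹ = (-1 : Kˣ) ^ m * ((-c) ^ m * (Nm K L y ^ e)⁻¹) := by
      rw [← mul_assoc, ← mul_zpow, neg_one_mul, neg_neg]
    have h11 : B 2 (-1) v c (Nm K L y) = m * lg 2 (-1) v (-1) := by
      unfold B
      rw [h2, ← hedef, h10, lg_mul hp hζ hv (by rw [ord_zpow, ord_neg_one, mul_zero]) h8, h9,
        add_zero, lg_zpow hp hζ hv ord_neg_one]
    unfold S
    rw [h11, h2, ← hedef]
    have h12 : ((e : ℤ) : ZMod 2) = 1 := by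
      have h13 : ((e : ℤ) : ZMod 2) ≠ 0 := by
        intro h0
        exact hc ((ZMod.intCast_zmod_eq_zero_iff_dvd _ _).1 h0)
      have h14 : ∀ a : ZMod 2, a ≠ 0 → a = 1 := by decide
      exact h14 _ h13
    rw [h12, one_mul]
    have h15 : ∀ a : ZMod 2, a + a = 0 := by decide
    exact h15 _

/-- the symbol `S` as an abstract symbol -/
def sm (c : Kˣ) : Sm (K := K) 2 (-1) c where
  f := fun v x => S v c x
  mul := fun _ hv x y => S_mul_right hv c x y
  eqB := fun _ _ hd x => S_of_dvd hd x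
  one1 := fun _ hv _ hx => S_of_one1 hv c hx
  ex := fun _ hv h => exists_S hv h
  spl := fun _ hv h x => spl_S hv h x

include H in
/-- **Hasse norm theorem** for `K(√c)`, `c` totally positive and primary at `2` -/
theorem hasse_pos (hpos : ∀ σ : K →+* ℝ, 0 < σ (c : K)) (hc : Prim 2 c) (b : Kˣ)
    (hb : ∀ v : Pl K, ¬ Above 2 v → S v c b = 0) : ∃ y : Lˣ, Nm K L y = b :=
  hasse_norm Nat.prime_two z1 H (sm c) (units_rank_pos z1 H hpos)
    (fun _ hv y => S_norm H hv y) hc b hb

end Pool.Agent.H89.HM
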