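import Pool.Agent.H63.MA.KumA

/-!
# HM-RK: the unit ranks of `K` and `L = K(√c)`, `c` totally positive
-/

set_option autoImplicit false

open scoped NumberField
open IsDedekindDomain H63.MA NumberField NumberField.InfinitePlace

noncomputable section

namespace Pool.Agent.H89.HM

variable {K : Type} [Field K] [NumberField K] {L : Type} [Field L] [NumberField L] [Algebra K L]

theorem real_of_sq {z : ℂ} {r : ℝ} (hr : 0 < r) (h : z ^ 2 = r) : (starRingEnd ℂ) z = z := by
  rw [Complex.conj_eq_iff_im]
  have h1 : (z ^ 2).im = 0 := by rw [h]; exact Complex.ofReal_im r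
  have h2 : (z ^ 2).re = r := by rw [h]; exact Complex.ofReal_re r
  rw [sq, Complex.mul_im] at h1
  rw [sq, Complex.mul_re] at h2
  have h3 : z.re * z.im = 0 := by linarith
  rcases mul_eq_zero.1 h3 with h4 | h4
  · exfalso
    rw [h4] at h2
    nlinarith [mul_self_nonneg z.im]
  · exact h4

theorem unram_inf (hζ : IsPrimitiveRoot (-1 : K) 2) {c : Kˣ} (H : Kum 2 K (-1) c L)
    (hc : ∀ σ : K →+* ℝ, 0 < σ (c : K)) : IsUnramifiedAtInfinitePlaces K L := by
  have hg : IsGalois K L := kum_galois Nat.prime_two hζ H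
  refine ⟨fun w => ?_⟩
  rw [← mk_embedding w, isUnramified_mk_iff_forall_isConj]
  intro s hs
  apply kuma_one Nat.prime_two hζ H
  set φ := w.embedding with hφ
  have hs' : ∀ x : L, (starRingEnd ℂ) (φ x) = φ (s x) := fun x => by
    have h := congrArg (fun f : L →+* ℂ => f x) hs
    exact h
  have hψ : ComplexEmbedding.IsReal (φ.comp (algebraMap K L)) := by
    rw [ComplexEmbedding.isReal_iff]
    ext x
    show (starRingEnd ℂ) (φ (algebraMap K L x)) = φ (algebraMap K L x)
    rw [hs', AlgEquiv.commutes]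
  have h1 : (φ (H.γ : L)) ^ 2 = ((hψ.embedding (c : K) : ℝ) : ℂ) := by
    rw [ComplexEmbedding.IsReal.coe_embedding_apply]
    show _ = φ (algebraMap K L c)
    rw [← map_pow, H.hγ]
  have h2 := real_of_sq (hc _) h1
  rw [hs'] at h2
  exact φ.injective h2

theorem units_rank_pos (hζ : IsPrimitiveRoot (-1 : K) 2) {c : Kˣ} (H : Kum 2 K (-1) c L)
    (hc : ∀ σ : K →+* ℝ, 0 < σ (c : K)) :
    NumberField.Units.rank L + 1 = 2 * (NumberField.Units.rank K + 1) := by
  have hg : IsGalois K L := kum_galois Nat.prime_two hζ H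
  have hu := unram_inf hζ H hc
  have h := IsUnramifiedAtInfinitePlaces.card_infinitePlace K L
  have hposK : 0 < Fintype.card (NumberField.InfinitePlace K) := Fintype.card_pos
  have hposL : 0 < Fintype.card (NumberField.InfinitePlace L) := Fintype.card_pos
  unfold NumberField.Units.rank
  rw [Nat.sub_add_cancel hposK, Nat.sub_add_cancel hposL, h, H.deg, mul_comm]

end Pool.Agent.H89.HM
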