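import Pool.Agent.H63.MA.SymC

/-!
# HM-SY: the quadratic Hilbert symbol at the primes not above 2

`S v c x = B v c x + ord v c * ord v x * lg v (-1)` in `ZMod 2` (`B` is the symbol of H63/MA without the sign).
-/

set_option autoImplicit false

open scoped NumberField
open IsDedekindDomain H63.MA

noncomputable section

namespace Pool.Agent.H89.HM

variable {K : Type} [Field K] [NumberField K]

theorem z1 : IsPrimitiveRoot (-1 : K) 2 := IsPrimitiveRoot.neg_one 0 (by norm_num)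

/-- the quadratic tame symbol with its sign -/
def S (v : Pl K) (c x : Kˣ) : ZMod 2 :=
  B 2 (-1) v c x + ((ord v c : ℤ) : ZMod 2) * ((ord v x : ℤ) : ZMod 2) * lg 2 (-1) v (-1)

variable {v : Pl K}

theorem ord_neg_one : ord v (-1 : Kˣ) = 0 := by
  have h : ord v ((-1 : Kˣ) ^ 2) = 0 := by rw [neg_one_sq, ord_one]
  rw [ord_pow] at h
  simpa using h

theorem S_mul_right (hv : ¬ Above 2 v) (c x y : Kˣ) : S v c (x * y) = S v c x + S v c y := by
  unfold S
  rw [B_mul_right Nat.prime_two z1 hv, ord_mul]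
  push_cast
  ring

theorem S_mul_left (hv : ¬ Above 2 v) (c d x : Kˣ) : S v (c * d) x = S v c x + S v d x := by
  unfold S
  rw [B_mul_left Nat.prime_two z1 hv, ord_mul]
  push_cast
  ring

theorem S_one_right (hv : ¬ Above 2 v) (c : Kˣ) : S v c 1 = 0 := by
  have h := S_mul_right hv c 1 1
  rw [mul_one] at h
  exact left_eq_add.1 h

theorem S_one_left (hv : ¬ Above 2 v) (c : Kˣ) : S v 1 c = 0 := by
  have h := S_mul_left hv 1 1 c
  rw [mul_one] at h
  exact left_eq_add.1 h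

theorem S_zpow_right (hv : ¬ Above 2 v) (c x : Kˣ) (n : ℤ) : S v c (x ^ n) = n * S v c x := by
  unfold S
  rw [B_zpow_right Nat.prime_two z1 hv, ord_zpow]
  push_cast
  ring

theorem S_symm (hv : ¬ Above 2 v) (c x : Kˣ) : S v c x = S v x c := by
  unfold S
  rw [B_symm Nat.prime_two z1 hv, ZMod.neg_eq_self_mod_two]
  ring

theorem S_of_one1 (hv : ¬ Above 2 v) (c : Kˣ) {x : Kˣ} (hx : One1 v x) : S v c x = 0 := by
  unfold S
  rw [B_of_one1 Nat.prime_two z1 hv c hx, ord_of_one1 hx]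
  simp

theorem S_of_one1' (hv : ¬ Above 2 v) (c : Kˣ) {x : Kˣ} (hx : One1 v x) : S v x c = 0 := by
  rw [S_symm hv, S_of_one1 hv c hx]

theorem S_of_ord (c : Kˣ) {x : Kˣ} (hx : ord v x = 0) : S v c x = B 2 (-1) v c x := by
  unfold S
  rw [hx]
  simp

theorem S_of_dvd {c : Kˣ} (hc : (2 : ℤ) ∣ ord v c) (x : Kˣ) : S v c x = B 2 (-1) v c x := by
  unfold S
  have h : ((ord v c : ℤ) : ZMod 2) = 0 := (ZMod.intCast_zmod_eq_zero_iff_dvd _ _).2 hc
  rw [h]
  simp

theorem S_unram (hv : ¬ Above 2 v) {c : Kˣ} (hc : (2 : ℤ) ∣ ord v c) {π : Kˣ} (hπ : ord v π = 1)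
    (x : Kˣ) : S v c x = ord v x * S v c π := by
  rw [S_of_dvd hc, S_of_dvd hc]
  exact B_unram Nat.prime_two z1 hv hc hπ x

theorem S_sq (hv : ¬ Above 2 v) (c x : Kˣ) : S v c (x ^ 2) = 0 := by
  have h := S_zpow_right hv c x 2
  rw [zpow_ofNat] at h
  rw [h]
  have h2 : ((2 : ℤ) : ZMod 2) = 0 := by decide
  rw [h2, zero_mul]

theorem S_sq_left (hv : ¬ Above 2 v) (c x : Kˣ) : S v (x ^ 2) c = 0 := by
  rw [S_symm hv, S_sq hv]

/-- `(c, -c) = 0` -/
theorem S_neg_self (hv : ¬ Above 2 v) (c : Kˣ) : S v c (-c) = 0 := by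
  have h1 : ord v (-c) = ord v c := by
    rw [← neg_one_mul, ord_mul, ord_neg_one, zero_add]
  have h2 : B 2 (-1) v c (-c) = ((ord v c : ℤ) : ZMod 2) * lg 2 (-1) v (-1) := by
    unfold B
    have h3 : c ^ ord v (-c) * ((-c) ^ ord v c)⁻¹ = (-1 : Kˣ) ^ (-ord v c) := by
      rw [h1, ← neg_one_mul c, mul_zpow, mul_inv, zpow_neg, mul_comm, mul_assoc,
        inv_mul_cancel, mul_one]
    rw [h3, lg_zpow Nat.prime_two z1 hv ord_neg_one]
    push_cast
    rw [ZMod.neg_eq_self_mod_two]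
  unfold S
  rw [h2, h1]
  have h4 : ∀ a b : ZMod 2, a * b + a * a * b = 0 := by decide
  exact h4 _ _

theorem spl_S (hv : ¬ Above 2 v) {c : Kˣ} (h : Spl 2 (-1) v c) (x : Kˣ) : S v c x = 0 := by
  rw [S_of_dvd (spl_dvd Nat.prime_two z1 hv h)]
  exact h x

theorem S_spl (hv : ¬ Above 2 v) {c : Kˣ} (h : ∀ x, S v c x = 0) : Spl 2 (-1) v c := by
  have hd : (2 : ℤ) ∣ ord v c := by
    obtain ⟨z, hz, hz1⟩ := exists_lg Nat.prime_two (z1 (K := K)) hv 1
    have h1 := h z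
    rw [S_of_ord c hz, B_symm Nat.prime_two z1 hv, B_unit Nat.prime_two z1 hv hz, hz1, mul_one,
      neg_eq_zero] at h1
    exact (ZMod.intCast_zmod_eq_zero_iff_dvd _ _).1 h1
  intro x
  rw [← S_of_dvd hd]
  exact h x

theorem exists_S (hv : ¬ Above 2 v) {c : Kˣ} (h : ¬ Spl 2 (-1) v c) : ∃ x, S v c x ≠ 0 := by
  by_contra hcon
  push Not at hcon
  exact h (S_spl hv hcon)

theorem finite_S (c x : Kˣ) : {v : Pl K | ¬ Above 2 v ∧ S v c x ≠ 0}.Finite := by
  refine ((finite_ord c).union (finite_ord x)).subset ?_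
  rintro w ⟨hw, hne⟩
  by_contra hcon
  rw [Set.mem_union, not_or] at hcon
  have h1 : ord w c = 0 := by
    by_contra h
    exact hcon.1 h
  have h2 : ord w x = 0 := by
    by_contra h
    exact hcon.2 h
  apply hne
  rw [S_of_ord c h2, B_unit Nat.prime_two z1 hw h1, h2]
  simp

end Pool.Agent.H89.HM
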