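import Pool.Agent.H89.HM.Nx

/-!
# HM-SC: the norm theorem of H63/MA with an abstract symbol

`Sm p ζ c`: a family of local homomorphisms `f v : Kˣ → ZMod p` (`v` not above `p`) which is the tame symbol `B v c` of `H63.MA` at
the `v` with `p ∣ ord v c`, trivial on `One1 v`, nonzero when `c` is not a `p`-th power at `v`. The theorem `hasse`: `c` primary at
`p`, the unit rank of `L = K(c^{1/p})` is as in the unramified case, the `f v` vanish on norms; then `b` with `f v b = 0` for all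
`v` not above `p` is a norm from `L`. Copied from `H63.MA` (`kumF_core`, `norm_of_rel`, `rel_extend`, `fam_of_rel`, `rel_unique`,
`hasse_norm`).
-/

set_option autoImplicit false

open scoped NumberField
open IsDedekindDomain H63.MA

noncomputable section

namespace Pool.Agent.H89.HM

/-- an abstract local symbol with `c` -/
structure Sm {K : Type} [Field K] [NumberField K] (p : ℕ) (ζ : K) (c : Kˣ) where
  f : Pl K → Kˣ → ZMod p
  mul : ∀ v, ¬ Above p v → ∀ x y, f v (x * y) = f v x + f v y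
  eqB : ∀ v, ¬ Above p v → (p : ℤ) ∣ ord v c → ∀ x, f v x = B p ζ v c x
  one1 : ∀ v, ¬ Above p v → ∀ x, One1 v x → f v x = 0
  ex : ∀ v, ¬ Above p v → ¬ Spl p ζ v c → ∃ x, f v x ≠ 0
  spl : ∀ v, ¬ Above p v → Spl p ζ v c → ∀ x, f v x = 0

section basic

variable {K : Type} [Field K] [NumberField K] {p : ℕ} {ζ : K} {c : Kˣ} (R : Sm p ζ c)

theorem Sm.one {v : Pl K} (hv : ¬ Above p v) : R.f v 1 = 0 := by
  have h := R.mul v hv 1 1
  rw [mul_one] at h
  exact left_eq_add.1 h

theorem Sm.zpow {v : Pl K} (hv : ¬ Above p v) (x : Kˣ) (n : ℤ) : R.f v (x ^ n) = n * R.f v x := by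
  let φ : Kˣ →* Multiplicative (ZMod p) :=
    MonoidHom.mk' (fun y => Multiplicative.ofAdd (R.f v y)) fun y z => by
      rw [R.mul v hv y z, ofAdd_add]
  have h1 : φ (x ^ n) = φ x ^ n := map_zpow φ x n
  have h2 := congrArg Multiplicative.toAdd h1
  rw [toAdd_zpow] at h2
  have h3 : R.f v (x ^ n) = n • R.f v x := h2
  rw [h3, zsmul_eq_mul]

theorem Sm.unram (hp : p.Prime) (hζ : IsPrimitiveRoot ζ p) {v : Pl K} (hv : ¬ Above p v)
    (hc : (p : ℤ) ∣ ord v c) {π : Kˣ} (hπ : ord v π = 1) (x : Kˣ) :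
    R.f v x = ord v x * R.f v π := by
  rw [R.eqB v hv hc, R.eqB v hv hc]
  exact B_unram hp hζ hv hc hπ x

/-- a linear relation between the symbols of `c` -/
def IsRel (k : Pl K → ZMod p) : Prop :=
  (∀ v, Above p v ∨ Spl p ζ v c → k v = 0) ∧ ∀ x : Kˣ, ∑ᶠ v, k v * R.f v x = 0

end basic

section norm

variable {K : Type} [Field K] [NumberField K] {L : Type} [Field L] [NumberField L] [Algebra K L]
  {p : ℕ} (hp : p.Prime) {ζ : K} (hζ : IsPrimitiveRoot ζ p) {c : Kˣ}
  (H : Kum p K ζ c L) (R : Sm p ζ c)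
  (hur : NumberField.Units.rank L + 1 = p * (NumberField.Units.rank K + 1))
  (hN : ∀ v, ¬ Above p v → ∀ y : Lˣ, R.f v (Nm K L y) = 0)

include hp hζ H hur hN

theorem core (T : Finset (Pl K)) (hcl : ClOne T)
    (hT : ∀ v, Above p v → v ∈ T) (hr : ∀ v : Pl K, ¬ (p : ℤ) ∣ ord v c → v ∈ T)
    (hc : Prim p c) :
    ∃ (φ : Additive (UT T) →+ (nsp p ζ c T → ZMod p)) (I : AddSubgroup (Additive (UT T))),
      (∀ x v, φ x v = R.f v.1 (x.toMul : Kˣ)) ∧ I ≤ φ.ker ∧
      I.index * p = p ^ (nsp p ζ c T).card ∧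
      ∀ x ∈ I, ∃ y : Lˣ, Nm K L y = (x.toMul : Kˣ) := by
  classical
  obtain ⟨TL, hTL⟩ := kumF_exTL (L := L) T
  obtain ⟨hle, hidx⟩ := norm_index hp hζ H hur T TL hTL hcl hT hr hc
  have hnA : ∀ v : nsp p ζ c T, ¬ Above p v.1 := by
    intro v
    have := v.2
    unfold nsp at this
    exact (Finset.mem_filter.1 this).2.1
  let φ : Additive (UT T) →+ (nsp p ζ c T → ZMod p) :=
    { toFun := fun x v => R.f v.1 (x.toMul : Kˣ)
      map_zero' := by
        funext v
        exact R.one (hnA v)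
      map_add' := by
        intro x y
        funext v
        exact R.mul v.1 (hnA v) _ _ }
  refine ⟨φ, Subgroup.toAddSubgroup (((UT TL).map (Nm K L)).subgroupOf (UT T)),
    fun x v => rfl, ?_, ?_, ?_⟩
  · intro x hx
    change x.toMul ∈ ((UT TL).map (Nm K L)).subgroupOf (UT T) at hx
    rw [Subgroup.mem_subgroupOf, Subgroup.mem_map] at hx
    obtain ⟨y, _, hy⟩ := hx
    rw [AddMonoidHom.mem_ker]
    funext v
    change R.f v.1 (x.toMul : Kˣ) = 0
    rw [← hy]
    exact hN v.1 (hnA v) y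
  · rw [Subgroup.index_toAddSubgroup]
    exact hidx
  · intro x hx
    change x.toMul ∈ ((UT TL).map (Nm K L)).subgroupOf (UT T) at hx
    rw [Subgroup.mem_subgroupOf, Subgroup.mem_map] at hx
    obtain ⟨y, _, hy⟩ := hx
    exact ⟨y, hy⟩

theorem norm_of_rel (T : Finset (Pl K)) (hcl : ClOne T)
    (hT : ∀ v, Above p v → v ∈ T) (hr : ∀ v : Pl K, ¬ (p : ℤ) ∣ ord v c → v ∈ T)
    (hc : Prim p c)
    (h1 : ∀ k k' : Pl K → ZMod p,
      (∀ x ∈ UT T, ∑ v ∈ nsp p ζ c T, k v * R.f v x = 0) →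
      (∀ x ∈ UT T, ∑ v ∈ nsp p ζ c T, k' v * R.f v x = 0) →
      ∃ a a' : ZMod p, (a ≠ 0 ∨ a' ≠ 0) ∧ ∀ v ∈ nsp p ζ c T, a * k v + a' * k' v = 0)
    (b : Kˣ) (hb : b ∈ UT T) (hB : ∀ v ∈ nsp p ζ c T, R.f v b = 0) :
    ∃ y : Lˣ, Nm K L y = b := by
  classical
  have : Fact p.Prime := ⟨hp⟩
  obtain ⟨φ, I, hφ, hI, hidx, hIy⟩ := core hp hζ H R hur hN T hcl hT hr hc
  have hIpos : 0 < I.index := by
    rcases Nat.eq_zero_or_pos I.index with h | h
    · rw [h, zero_mul] at hidx
      exact absurd hidx.symm (pow_pos hp.pos _).ne'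
    · exact h
  let W : Submodule (ZMod p) (nsp p ζ c T → ZMod p) := AddSubgroup.toZModSubmodule p φ.range
  have hrel : ∀ f ∈ W.dualAnnihilator, ∀ g ∈ W.dualAnnihilator,
      ∃ a a' : ZMod p, (a ≠ 0 ∨ a' ≠ 0) ∧ a • f + a' • g = 0 := by
    intro f hf g hg
    obtain ⟨k, hk, hkf⟩ := kumF_dual (nsp p ζ c T) f
    obtain ⟨k', hk', hkg⟩ := kumF_dual (nsp p ζ c T) g
    have hz : ∀ (f : Module.Dual (ZMod p) (nsp p ζ c T → ZMod p)) (k : Pl K → ZMod p),
        f ∈ W.dualAnnihilator →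
        (∀ y : Pl K → ZMod p, f (fun v => y v) = ∑ v ∈ nsp p ζ c T, k v * y v) →
        ∀ x ∈ UT T, ∑ v ∈ nsp p ζ c T, k v * R.f v x = 0 := by
      intro f k hf hkf x hx
      have h1 := hkf (fun v => R.f v x)
      rw [← h1]
      have h2 : (fun v : nsp p ζ c T => R.f v x) = φ (Additive.ofMul ⟨x, hx⟩) := by
        funext v
        rw [hφ]
        rfl
      rw [h2]
      rw [Submodule.mem_dualAnnihilator] at hf
      exact hf _ ⟨_, rfl⟩
    obtain ⟨a, a', haa, hrl⟩ := h1 k k' (hz f k hf hkf) (hz g k' hg hkg)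
    refine ⟨a, a', haa, ?_⟩
    ext1 v
    apply LinearMap.ext_ring
    have e1 := hkf (fun w => if w = v.1 then 1 else 0)
    have e2 := hkg (fun w => if w = v.1 then 1 else 0)
    have e3 : (fun w : nsp p ζ c T => (if w.1 = v.1 then 1 else 0 : ZMod p)) =
        LinearMap.single (ZMod p) (fun _ => ZMod p) v 1 := by
      funext w
      rw [LinearMap.single_apply, Pi.single_apply]
      simp only [Subtype.ext_iff]
    rw [e3] at e1 e2
    rw [LinearMap.comp_apply, LinearMap.zero_comp, LinearMap.zero_apply, LinearMap.add_apply,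
      LinearMap.smul_apply, LinearMap.smul_apply, e1, e2]
    simp only [mul_ite, mul_one, mul_zero, Finset.sum_ite_eq', v.2, if_true, smul_eq_mul]
    exact hrl v.1 v.2
  have hdim : Module.finrank (ZMod p) W.dualAnnihilator ≤ 1 := by
    by_cases hbot : W.dualAnnihilator = ⊥
    · rw [hbot]; simp
    · obtain ⟨f, hf, hf0⟩ := Submodule.exists_mem_ne_zero_of_ne_bot hbot
      refine finrank_le_one (⟨f, hf⟩ : W.dualAnnihilator) ?_
      rintro ⟨g, hg⟩
      obtain ⟨a, a', haa, h⟩ := hrel f hf g hg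
      have ha' : a' ≠ 0 := by
        rintro rfl
        rw [zero_smul, add_zero] at h
        rcases haa with h3 | h3
        · exact hf0 ((smul_eq_zero.1 h).resolve_left h3)
        · exact h3 rfl
      refine ⟨-(a'⁻¹ * a), ?_⟩
      apply Subtype.ext
      change (-(a'⁻¹ * a)) • f = g
      have h4 : a' • g = -(a • f) := by rw [eq_neg_iff_add_eq_zero, add_comm]; exact h
      have h5 : a'⁻¹ * a' = 1 := inv_mul_cancel₀ ha'
      apply LinearMap.ext
      intro z
      have h6 := congrArg (fun l : Module.Dual (ZMod p) (nsp p ζ c T → ZMod p) => l z) h4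
      simp only [LinearMap.smul_apply, LinearMap.neg_apply, smul_eq_mul] at h6 ⊢
      linear_combination (-a'⁻¹) * h6 + (g z) * h5
  have hsum : Module.finrank (ZMod p) W + Module.finrank (ZMod p) W.dualAnnihilator =
      (nsp p ζ c T).card := by
    rw [Subspace.finrank_add_finrank_dualAnnihilator_eq, Module.finrank_fintype_fun_eq_card,
      Fintype.card_coe]
  have hcardW : Nat.card φ.range = p ^ Module.finrank (ZMod p) W := by
    have := Module.natCard_eq_pow_finrank (K := ZMod p) (V := W)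
    rw [Nat.card_zmod] at this
    exact this
  have h3 : Nat.card φ.range ∣ I.index := by
    rw [← AddSubgroup.index_ker]
    exact AddSubgroup.index_dvd_of_le hI
  have h4 : I.index * p ≤ Nat.card φ.range * p := by
    rw [hidx, hcardW, ← pow_succ]
    exact Nat.pow_le_pow_right hp.pos (by omega)
  have h5 : Nat.card φ.range = I.index :=
    le_antisymm (Nat.le_of_dvd hIpos h3) (Nat.le_of_mul_le_mul_right h4 hp.pos)
  rw [← AddSubgroup.index_ker] at h5
  have h6 := AddSubgroup.relIndex_mul_index hI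
  rw [h5] at h6
  have h7 : I.relIndex φ.ker = 1 := by
    have : I.relIndex φ.ker * I.index = 1 * I.index := by rw [h6, one_mul]
    exact Nat.eq_of_mul_eq_mul_right hIpos this
  rw [AddSubgroup.relIndex_eq_one] at h7
  have h8 : Additive.ofMul (⟨b, hb⟩ : UT T) ∈ φ.ker := by
    rw [AddMonoidHom.mem_ker]
    funext v
    rw [hφ]
    exact hB v.1 v.2
  obtain ⟨y, hy⟩ := hIy _ (h7 h8)
  exact ⟨y, hy⟩


end norm

variable {K : Type} [Field K] [NumberField K]

theorem rel_extend {p : ℕ} (hp : p.Prime) {ζ : K} (hζ : IsPrimitiveRoot ζ p) {c : Kˣ} (R : Sm p ζ c)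
    (T : Finset (Pl K)) (hcl : ClOne T) (hT : ∀ v, Above p v → v ∈ T)
    (hr : ∀ v : Pl K, ¬ (p : ℤ) ∣ ord v c → v ∈ T) (k : Pl K → ZMod p)
    (hk0 : ∀ v, v ∉ nsp p ζ c T → k v = 0)
    (hk : ∀ x : Kˣ, (∀ v, v ∉ T → ¬ Spl p ζ v c → ord v x = 0) →
      ∑ v ∈ nsp p ζ c T, k v * R.f v x = 0) :
    ∃ k' : Pl K → ZMod p, IsRel R k' ∧ ∀ v ∈ nsp p ζ c T, k' v = k v := by
  classical
  haveI : Fact p.Prime := ⟨hp⟩
  have hnsp : ∀ v, v ∈ nsp p ζ c T ↔ v ∈ T ∧ ¬ Above p v ∧ ¬ Spl p ζ v c := by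
    intro v
    simp [nsp]
  let S : Kˣ → ZMod p := fun x => ∑ v ∈ nsp p ζ c T, k v * R.f v x
  have hSmul : ∀ x y, S (x * y) = S x + S y := by
    intro x y
    simp only [S]
    rw [← Finset.sum_add_distrib]
    refine Finset.sum_congr rfl fun v hv => ?_
    rw [R.mul v ((hnsp v).1 hv).2.1]
    ring
  have hSzpow : ∀ x (n : ℤ), S (x ^ n) = n * S x := by
    intro x n
    simp only [S]
    rw [Finset.mul_sum]
    refine Finset.sum_congr rfl fun v hv => ?_
    rw [R.zpow ((hnsp v).1 hv).2.1]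
    ring
  have hSone : S 1 = 0 := by
    have := hSzpow 1 0
    rw [zpow_zero, Int.cast_zero, zero_mul] at this
    exact this
  have hSprod : ∀ (A : Finset (Pl K)) (f : Pl K → Kˣ), S (∏ v ∈ A, f v) = ∑ v ∈ A, S (f v) := by
    intro A f
    induction A using Finset.induction_on with
    | empty => rw [Finset.prod_empty, Finset.sum_empty, hSone]
    | insert a s ha ih => rw [Finset.prod_insert ha, Finset.sum_insert ha, hSmul, ih]
  have hgex : ∀ v : Pl K, ∃ x : Kˣ, v ∉ T → ord v x = 1 ∧ ∀ w, w ∉ T → w ≠ v → ord w x = 0 := by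
    intro v
    by_cases hv : v ∈ T
    · exact ⟨1, fun h => absurd hv h⟩
    · obtain ⟨x, hx⟩ := hcl v hv
      exact ⟨x, fun _ => hx⟩
  choose g hg using hgex
  have hab : ∀ v, v ∉ T → ¬ Above p v := fun v hv h => hv (hT v h)
  have hdvd : ∀ v, v ∉ T → (p : ℤ) ∣ ord v c := by
    intro v hv
    by_contra h
    exact hv (hr v h)
  have hBg : ∀ v, v ∉ T → ∀ x, R.f v x = ord v x * R.f v (g v) := fun v hv x =>
    R.unram hp hζ (hab v hv) (hdvd v hv) (hg v hv).1 x
  have hBne : ∀ v, v ∉ T → ¬ Spl p ζ v c → R.f v (g v) ≠ 0 := by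
    intro v hv hs h0
    obtain ⟨x, hx⟩ := R.ex v (hab v hv) hs
    exact hx (by rw [hBg v hv x, h0, mul_zero])
  let k' : Pl K → ZMod p := fun v =>
    if v ∈ nsp p ζ c T then k v else if v ∈ T ∨ Spl p ζ v c then 0
      else -(S (g v) / R.f v (g v))
  have hk'1 : ∀ v ∈ nsp p ζ c T, k' v = k v := fun v hv => if_pos hv
  have hk'2 : ∀ v, v ∉ T → ¬ Spl p ζ v c → k' v = -(S (g v) / R.f v (g v)) := by
    intro v hv hs
    have h1 : v ∉ nsp p ζ c T := fun h => hv ((hnsp v).1 h).1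
    simp only [k']
    rw [if_neg h1, if_neg (not_or.2 ⟨hv, hs⟩)]
  have hk'3 : ∀ v, v ∉ nsp p ζ c T → (v ∈ T ∨ Spl p ζ v c) → k' v = 0 := by
    intro v h1 h2
    simp only [k']
    rw [if_neg h1, if_pos h2]
  refine ⟨k', ⟨?_, ?_⟩, hk'1⟩
  · intro v hv
    have h1 : v ∉ nsp p ζ c T := by
      intro h
      rcases hv with h2 | h2
      · exact ((hnsp v).1 h).2.1 h2
      · exact ((hnsp v).1 h).2.2 h2
    exact hk'3 v h1 (hv.imp (hT v) id)
  · intro x
    let A : Finset (Pl K) := (finite_ord x).toFinset.filter fun v => v ∉ T ∧ ¬ Spl p ζ v c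
    have hA : ∀ v, v ∈ A ↔ ord v x ≠ 0 ∧ v ∉ T ∧ ¬ Spl p ζ v c := by
      intro v
      simp [A]
    have hdis : Disjoint (nsp p ζ c T) A := by
      rw [Finset.disjoint_left]
      intro v h1 h2
      exact ((hA v).1 h2).2.1 ((hnsp v).1 h1).1
    have hsupp : (Function.support fun v => k' v * R.f v x) ⊆
        ((nsp p ζ c T ∪ A : Finset (Pl K)) : Set (Pl K)) := by
      intro v hv
      rw [Function.mem_support] at hv
      have h1 := left_ne_zero_of_mul hv
      have h2 := right_ne_zero_of_mul hv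
      rw [Finset.mem_coe, Finset.mem_union]
      by_cases h3 : v ∈ nsp p ζ c T
      · exact Or.inl h3
      · right
        have h4 : ¬ (v ∈ T ∨ Spl p ζ v c) := fun h => h1 (hk'3 v h3 h)
        rw [not_or] at h4
        rw [hA]
        refine ⟨fun h5 => h2 ?_, h4⟩
        rw [hBg v h4.1, h5]
        simp
    rw [finsum_eq_sum_of_support_subset _ hsupp, Finset.sum_union hdis]
    have h1 : ∑ v ∈ nsp p ζ c T, k' v * R.f v x = S x :=
      Finset.sum_congr rfl fun v hv => by rw [hk'1 v hv]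
    have h2 : ∑ v ∈ A, k' v * R.f v x = -∑ v ∈ A, (ord v x : ZMod p) * S (g v) := by
      rw [← Finset.sum_neg_distrib]
      refine Finset.sum_congr rfl fun v hv => ?_
      obtain ⟨-, hvT, hvs⟩ := (hA v).1 hv
      rw [hk'2 v hvT hvs, hBg v hvT x]
      have h3 := hBne v hvT hvs
      field_simp
    have h3 : S (x * ∏ v ∈ A, g v ^ (-ord v x)) = 0 := by
      apply hk
      intro w hwT hws
      rw [ord_mul, ord_prod]
      have h4 : ∀ v ∈ A, v ≠ w → ord w (g v ^ (-ord v x)) = 0 := by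
        intro v hv hvw
        obtain ⟨-, hvT, -⟩ := (hA v).1 hv
        rw [ord_zpow, (hg v hvT).2 w hwT (Ne.symm hvw), mul_zero]
      by_cases hwA : w ∈ A
      · rw [Finset.sum_eq_single w h4 (fun h => absurd hwA h), ord_zpow, (hg w hwT).1]
        ring
      · rw [Finset.sum_eq_zero (fun v hv => h4 v hv (fun h => hwA (h ▸ hv))), add_zero]
        by_contra h5
        exact hwA ((hA w).2 ⟨h5, hwT, hws⟩)
    rw [hSmul, hSprod] at h3
    have h4 : ∑ v ∈ A, S (g v ^ (-ord v x)) = -∑ v ∈ A, (ord v x : ZMod p) * S (g v) := by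
      rw [← Finset.sum_neg_distrib]
      refine Finset.sum_congr rfl fun v _ => ?_
      rw [hSzpow]
      push_cast
      ring
    rw [h4] at h3
    rw [h1, h2]
    exact h3

theorem fam_of_rel {p : ℕ} (hp : p.Prime) {ζ : K} (hζ : IsPrimitiveRoot ζ p) {c : Kˣ} {R : Sm p ζ c}
    {k : Pl K → ZMod p} (h : IsRel R k) : IsFam p fun v x => k v * R.f v x where
  mul := fun v x y => by
    by_cases hv : Above p v
    · rw [h.1 v (Or.inl hv)]
      ring
    · rw [R.mul v hv]
      ring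
  above := fun v hv x => by
    rw [h.1 v (Or.inl hv), zero_mul]
  one1 := fun v x hx => by
    by_cases hv : Above p v
    · rw [h.1 v (Or.inl hv), zero_mul]
    · rw [R.one1 v hv _ hx, mul_zero]
  unram := by
    refine (finite_ord c).subset fun v hv => ?_
    obtain ⟨x, ho, hx⟩ := hv
    intro hc
    apply hx
    by_cases hv : Above p v
    · rw [h.1 v (Or.inl hv), zero_mul]
    · rw [R.eqB v hv (by rw [hc]; exact dvd_zero _), B_unit hp hζ hv hc, ho, Int.cast_zero,
        zero_mul, mul_zero]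
  sum := h.2

section uniq

variable {p : ℕ} (hp : p.Prime) {ζ : K} (hζ : IsPrimitiveRoot ζ p)

include hp hζ

theorem rel_unique {c : Kˣ} {R : Sm p ζ c} (hc : ¬ IsPow p c) {k k' : Pl K → ZMod p} (h : IsRel R k)
    (h' : IsRel R k') :
    ∃ a a' : ZMod p, (a ≠ 0 ∨ a' ≠ 0) ∧ ∀ v, a * k v + a' * k' v = 0 := by
  classical
  have : Fact p.Prime := ⟨hp⟩
  set β : Fin 2 → Pl K → Kˣ → ZMod p :=
    ![fun v x => k v * R.f v x, fun v x => k' v * R.f v x] with hβdef
  have hβ : ∀ i, IsFam p (β i) := by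
    intro i
    fin_cases i
    · exact fam_of_rel hp hζ h
    · exact fam_of_rel hp hζ h'
  by_cases hind : ∀ a : Fin 2 → ZMod p, (∀ v x, ∑ i, a i * β i v x = 0) → a = 0
  · exfalso
    obtain ⟨C, hC⟩ := den_fam hp β hβ hind
    obtain ⟨C', hC'⟩ := pz_spl hp hζ hc
    have hp1 : (1 : ℝ) < p := by exact_mod_cast hp.one_lt
    refine uni_contra (n := (p : ℝ) - 1) (by linarith) (C + p * C') fun s hs hs2 => ?_
    have h1 := hC s hs hs2
    have h2 := (abs_le.1 (hC' s hs hs2)).1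
    have h3 : PZ {v : Pl K | ¬ Above p v ∧ Spl p ζ v c} s ≤
        PZ {v : Pl K | ∀ i, ∀ x, β i v x = 0} s := by
      refine pz_mono ?_ hs
      rintro v ⟨hva, hv⟩ i x
      fin_cases i
      · show k v * R.f v x = 0
        rw [R.spl v hva hv x, mul_zero]
      · show k' v * R.f v x = 0
        rw [R.spl v hva hv x, mul_zero]
    have h4 := mul_le_mul_of_nonneg_left h3 (by positivity : (0 : ℝ) ≤ (p : ℝ) ^ 2)
    nlinarith
  · push Not at hind
    obtain ⟨a, ha, ha0⟩ := hind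
    refine ⟨a 0, a 1, ?_, fun v => ?_⟩
    · by_contra hcon
      push Not at hcon
      apply ha0
      funext i
      fin_cases i
      · exact hcon.1
      · exact hcon.2
    · by_cases hv : Above p v ∨ Spl p ζ v c
      · rw [h.1 v hv, h'.1 v hv, mul_zero, mul_zero, add_zero]
      · rw [not_or] at hv
        have hx : ∃ x, R.f v x ≠ 0 := R.ex v hv.1 hv.2
        obtain ⟨x, hx⟩ := hx
        have h1 := ha v x
        rw [Fin.sum_univ_two] at h1
        have h2 : a 0 * (k v * R.f v x) + a 1 * (k' v * R.f v x) = 0 := h1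
        have h3 : (a 0 * k v + a 1 * k' v) * R.f v x = 0 := by
          rw [← h2]
          ring
        exact (mul_eq_zero.1 h3).resolve_right hx


end uniq

theorem hasse_norm {K : Type} [Field K] [NumberField K] {L : Type} [Field L] [NumberField L]
    [Algebra K L] {p : ℕ} (hp : p.Prime) {ζ : K} (hζ : IsPrimitiveRoot ζ p) {c : Kˣ}
    (H : Kum p K ζ c L) (R : Sm p ζ c)
    (hur : NumberField.Units.rank L + 1 = p * (NumberField.Units.rank K + 1))
    (hNm : ∀ v, ¬ Above p v → ∀ y : Lˣ, R.f v (Nm K L y) = 0) (hc : Prim p c) (b : Kˣ)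
    (hb : ∀ v : Pl K, ¬ Above p v → R.f v b = 0) : ∃ y : Lˣ, Nm K L y = b := by
  classical
  have hpf : Fact p.Prime := ⟨hp⟩
  by_contra hno
  obtain ⟨T0, hT0⟩ := exists_clone K
  obtain ⟨T, hTd⟩ : ∃ T : Finset (Pl K), T = T0 ∪ (finite_above (K := K) hp.ne_zero).toFinset ∪
      (finite_ord c).toFinset ∪ (finite_ord b).toFinset := ⟨_, rfl⟩
  have hcl : ClOne T := by
    refine clone_mono hT0 ?_
    intro v hv
    rw [hTd]
    simp only [Finset.mem_union]
    exact Or.inl (Or.inl (Or.inl hv))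
  have hT : ∀ v, Above p v → v ∈ T := by
    intro v hv
    rw [hTd]
    simp only [Finset.mem_union]
    exact Or.inl (Or.inl (Or.inr ((Set.Finite.mem_toFinset _).2 hv)))
  have hr : ∀ v : Pl K, ¬ (p : ℤ) ∣ ord v c → v ∈ T := by
    intro v hv
    rw [hTd]
    simp only [Finset.mem_union]
    refine Or.inl (Or.inr ((Set.Finite.mem_toFinset _).2 ?_))
    intro h0
    exact hv (by rw [h0]; exact dvd_zero _)
  have hbT : ∀ v, v ∉ T → ord v b = 0 := by
    intro v hv
    by_contra h0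
    apply hv
    rw [hTd]
    simp only [Finset.mem_union]
    exact Or.inr ((Set.Finite.mem_toFinset _).2 h0)
  obtain ⟨N, hNd⟩ : ∃ N : Finset (Pl K), N = nsp p ζ c T := ⟨_, rfl⟩
  have hN : ∀ F : Finset (Pl K), (∀ v ∈ F, Spl p ζ v c) → nsp p ζ c (T ∪ F) = N := by
    intro F hF
    rw [hNd]
    unfold nsp
    ext v
    simp only [Finset.mem_filter, Finset.mem_union]
    constructor
    · rintro ⟨h | h, h1⟩
      · exact ⟨h, h1⟩
      · exact absurd (hF v h) h1.2
    · rintro ⟨h, h1⟩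
      exact ⟨Or.inl h, h1⟩
  have hNa : ∀ v ∈ N, ¬ Above p v := by
    intro v hv
    rw [hNd] at hv
    unfold nsp at hv
    exact (Finset.mem_filter.1 hv).2.1
  have key : ∀ F : Finset (Pl K), (∀ v ∈ F, Spl p ζ v c) → ∃ k k' : N → ZMod p,
      (∀ x ∈ UT (T ∪ F), ∑ v : N, k v * R.f (v : Pl K) x = 0) ∧
      (∀ x ∈ UT (T ∪ F), ∑ v : N, k' v * R.f (v : Pl K) x = 0) ∧
      ¬ ∃ a a' : ZMod p, (a ≠ 0 ∨ a' ≠ 0) ∧ ∀ v : N, a * k v + a' * k' v = 0 := by
    intro F hF
    by_contra hcon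
    apply hno
    refine norm_of_rel hp hζ H R hur hNm (T ∪ F) (clone_mono hcl Finset.subset_union_left)
      (fun v hv => Finset.mem_union_left _ (hT v hv)) (fun v hv => Finset.mem_union_left _ (hr v hv))
      hc ?_ b (fun v hv => hbT v (fun h => hv (Finset.mem_union_left _ h))) ?_
    · intro k k' hk hk'
      by_contra hab
      rw [hN F hF] at hk hk' hab
      apply hcon
      refine ⟨fun v => k v, fun v => k' v, ?_, ?_, ?_⟩
      · intro x hx
        rw [Finset.sum_coe_sort N (fun v => k v * R.f v x)]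
        exact hk x hx
      · intro x hx
        rw [Finset.sum_coe_sort N (fun v => k' v * R.f v x)]
        exact hk' x hx
      · rintro ⟨a, a', h, h1⟩
        exact hab ⟨a, a', h, fun v hv => h1 ⟨v, hv⟩⟩
    · intro v hv
      rw [hN F hF] at hv
      exact hb v (hNa v hv)
  have key2 : ∃ k k' : N → ZMod p,
      (∀ F : Finset (Pl K), (∀ v ∈ F, Spl p ζ v c) → ∀ x ∈ UT (T ∪ F),
        ∑ v : N, k v * R.f (v : Pl K) x = 0 ∧ ∑ v : N, k' v * R.f (v : Pl K) x = 0) ∧
      ¬ ∃ a a' : ZMod p, (a ≠ 0 ∨ a' ≠ 0) ∧ ∀ v : N, a * k v + a' * k' v = 0 := by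
    by_contra hcon
    have h3 : ∀ q : (N → ZMod p) × (N → ZMod p), ∃ F : Finset (Pl K), (∀ v ∈ F, Spl p ζ v c) ∧
        ((∃ a a' : ZMod p, (a ≠ 0 ∨ a' ≠ 0) ∧ ∀ v : N, a * q.1 v + a' * q.2 v = 0) ∨
        ¬ ∀ x ∈ UT (T ∪ F),
          ∑ v : N, q.1 v * R.f (v : Pl K) x = 0 ∧
            ∑ v : N, q.2 v * R.f (v : Pl K) x = 0) := by
      intro q
      by_contra h4
      apply hcon
      refine ⟨q.1, q.2, ?_, ?_⟩
      · intro F hF
        by_contra h5
        exact h4 ⟨F, hF, Or.inr h5⟩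
      · intro h5
        exact h4 ⟨∅, fun v hv => absurd hv (Finset.notMem_empty _), Or.inl h5⟩
    choose G hG1 hG2 using h3
    obtain ⟨k, k', h1, h2, h5⟩ := key (Finset.univ.biUnion G) (by
      intro v hv
      obtain ⟨q, -, hq⟩ := Finset.mem_biUnion.1 hv
      exact hG1 q v hq)
    rcases hG2 (k, k') with h | h
    · exact h5 h
    · apply h
      intro x hx
      have hx' : x ∈ UT (T ∪ Finset.univ.biUnion G) := by
        intro v hv
        refine hx v fun h6 => hv ?_
        rcases Finset.mem_union.1 h6 with h6 | h6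
        · exact Finset.mem_union_left _ h6
        · exact Finset.mem_union_right _ (Finset.mem_biUnion.2 ⟨(k, k'), Finset.mem_univ _, h6⟩)
      exact ⟨h1 x hx', h2 x hx'⟩
  obtain ⟨k, k', hk, hnp⟩ := key2
  have hext : ∀ k : N → ZMod p, (∀ F : Finset (Pl K), (∀ v ∈ F, Spl p ζ v c) → ∀ x ∈ UT (T ∪ F),
        ∑ v : N, k v * R.f (v : Pl K) x = 0) →
      ∃ k1 : Pl K → ZMod p, IsRel R k1 ∧ ∀ v : N, k1 v = k v := by
    intro k hk
    obtain ⟨k1, hk1, hk2⟩ := rel_extend hp hζ R T hcl hT hr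
      (fun v => if h : v ∈ N then k ⟨v, h⟩ else 0) (by
        intro v hv
        rw [← hNd] at hv
        exact dif_neg hv) (by
        intro x hx
        rw [← hNd]
        have h1 := hk ((finite_ord x).toFinset.filter fun v => Spl p ζ v c)
          (fun v hv => (Finset.mem_filter.1 hv).2) x (by
            intro v hv
            by_contra h0
            have hvT : v ∉ T := fun h => hv (Finset.mem_union_left _ h)
            have hvS : ¬ Spl p ζ v c := fun h => hv (Finset.mem_union_right _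
              (Finset.mem_filter.2 ⟨(Set.Finite.mem_toFinset _).2 h0, h⟩))
            exact h0 (hx v hvT hvS))
        rw [← h1, ← Finset.sum_coe_sort N]
        refine Finset.sum_congr rfl fun v _ => ?_
        rw [dif_pos v.2])
    refine ⟨k1, hk1, fun v => ?_⟩
    rw [hk2 v (by rw [← hNd]; exact v.2), dif_pos v.2]
  obtain ⟨k1, hk1, hk2⟩ := hext k (fun F hF x hx => (hk F hF x hx).1)
  obtain ⟨k1', hk1', hk2'⟩ := hext k' (fun F hF x hx => (hk F hF x hx).2)
  obtain ⟨a, a', ha, hv⟩ := rel_unique hp hζ (kum_not_pow hp hζ H) hk1 hk1'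
  apply hnp
  refine ⟨a, a', ha, fun v => ?_⟩
  rw [← hk2 v, ← hk2' v]
  exact hv v


end Pool.Agent.H89.HM
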